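import Mathlib

/-! Ramsey-like statements for patterns and computable reducibility. -/

set_option autoImplicit false

namespace Pool.Agent.H132Z.RT

/-- A colouring `f : [ℕ]² → 2` of the pairs `(x, y)` with `x < y`. -/
abbrev Coloring : Type := {q : ℕ × ℕ // q.1 < q.2} → Fin 2

/-- A pattern `p : [l]² → 2` of size `l`. -/
abbrev Pattern (l : ℕ) : Type := {q : Fin l × Fin l // q.1 < q.2} → Fin 2

/-- `H` contains no `x₀ < ... < x_{l-1}` with `f (x_i, x_j) = p (i, j)` for all `i < j`. -/
def Avoids {l : ℕ} (f : Coloring) (p : Pattern l) (H : Set ℕ) : Prop :=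
  ¬ ∃ (x : Fin l → ℕ) (hx : StrictMono x), (∀ i, x i ∈ H) ∧
    ∀ (i j : Fin l) (h : i < j), f ⟨(x i, x j), hx h⟩ = p ⟨(i, j), h⟩

/-- The pattern of a permutation given as the list of its values: the colour of `x < y` is `0` if
`π x < π y` and `1` otherwise. -/
def permPattern (π : List ℕ) : Pattern π.length :=
  fun q => if π.get q.1.1 < π.get q.1.2 then 0 else 1

/-- Separable permutations, as lists of values: generated from the one-point permutation by direct
sums and skew sums. -/
inductive Separable : List ℕ → Prop
  | point : Separable [0]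
  | direct (π σ : List ℕ) : Separable π → Separable σ →
      Separable (π ++ σ.map (fun v => v + π.length))
  | skew (π σ : List ℕ) : Separable π → Separable σ →
      Separable (π.map (fun v => v + σ.length) ++ σ)

/-- Solutions of `RT²₂`: infinite sets on whose pairs `f` is constant. -/
def SolRT (f : Coloring) (H : Set ℕ) : Prop :=
  H.Infinite ∧ ∃ c : Fin 2, ∀ x ∈ H, ∀ y ∈ H, ∀ h : x < y, f ⟨(x, y), h⟩ = c

/-- Solutions of `RT²₂(p)`: infinite sets that avoid `p`. -/
def SolRTp {l : ℕ} (p : Pattern l) (f : Coloring) (H : Set ℕ) : Prop :=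
  H.Infinite ∧ Avoids f p H

/-- A colouring as an oracle: the code of the pair `(x, y)` is sent to `f (x, y)` if `x < y`, and
to `0` otherwise. -/
def colOracle (f : Coloring) : ℕ →. ℕ :=
  fun n => Part.some (if h : n.unpair.1 < n.unpair.2 then (f ⟨n.unpair, h⟩ : ℕ) else 0)

open Classical in
/-- A set as an oracle: its characteristic function. -/
noncomputable def setOracle (A : Set ℕ) : ℕ →. ℕ :=
  fun n => Part.some (if n ∈ A then 1 else 0)

/-- The join of two oracles. -/
def join (a b : ℕ →. ℕ) : ℕ →. ℕ := fun n => if n % 2 = 0 then a (n / 2) else b (n / 2)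

/-- Computable reducibility `P ≤_c Q` of two problems whose instances are the colourings and whose
solutions are sets, each problem given by its solution relation. -/
def CompRed (P Q : Coloring → Set ℕ → Prop) : Prop :=
  ∀ f : Coloring, ∃ g : Coloring, TuringReducible (colOracle g) (colOracle f) ∧
    ∀ G : Set ℕ, Q g G →
      ∃ H : Set ℕ, P f H ∧ TuringReducible (setOracle H) (join (colOracle f) (setOracle G))

end Pool.Agent.H132Z.RT
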