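import Mathlib

/-! Codes for oracle computations: countably many monotone and continuous functionals. -/

set_option autoImplicit false

namespace Pool.Agent.H132Z.RT

/-- Codes of oracle computations. -/
inductive OC : Type
  | zero : OC
  | succ : OC
  | left : OC
  | right : OC
  | orc : OC
  | pair : OC → OC → OC
  | comp : OC → OC → OC
  | prec : OC → OC → OC
  | rfind : OC → OC
  deriving Countable

instance : Nonempty OC := ⟨OC.zero⟩

/-- Evaluation of a code with an oracle. -/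
def OC.ev : OC → (ℕ →. ℕ) → ℕ →. ℕ
  | .zero, _ => fun _ => 0
  | .succ, _ => (Nat.succ : ℕ →. ℕ)
  | .left, _ => fun n => (Nat.unpair n).1
  | .right, _ => fun n => (Nat.unpair n).2
  | .orc, o => o
  | .pair c d, o => fun n => (Nat.pair <$> c.ev o n <*> d.ev o n)
  | .comp c d, o => fun n => d.ev o n >>= c.ev o
  | .prec c d, o => fun p =>
      let (a, n) := Nat.unpair p
      n.rec (c.ev o a) fun y IH => do
        let i ← IH
        d.ev o (Nat.pair a (Nat.pair y i))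
  | .rfind c, o => fun a => Nat.rfind fun n => (fun m => m = 0) <$> c.ev o (Nat.pair a n)

theorem exists_code {o h : ℕ →. ℕ} (H : Nat.RecursiveIn {o} h) : ∃ c : OC, c.ev o = h := by
  induction H with
  | zero => exact ⟨.zero, rfl⟩
  | succ => exact ⟨.succ, rfl⟩
  | left => exact ⟨.left, rfl⟩
  | right => exact ⟨.right, rfl⟩
  | oracle g hg => exact ⟨.orc, (Set.mem_singleton_iff.1 hg).symm⟩
  | pair _ _ ih1 ih2 =>
    obtain ⟨c, rfl⟩ := ih1
    obtain ⟨d, rfl⟩ := ih2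
    exact ⟨.pair c d, rfl⟩
  | comp _ _ ih1 ih2 =>
    obtain ⟨c, rfl⟩ := ih1
    obtain ⟨d, rfl⟩ := ih2
    exact ⟨.comp c d, rfl⟩
  | prec _ _ ih1 ih2 =>
    obtain ⟨c, rfl⟩ := ih1
    obtain ⟨d, rfl⟩ := ih2
    exact ⟨.prec c d, rfl⟩
  | rfind _ ih =>
    obtain ⟨c, rfl⟩ := ih
    exact ⟨.rfind c, rfl⟩

/-- `o'` extends `o`. -/
def Ext (o o' : ℕ →. ℕ) : Prop := ∀ q v, v ∈ o q → v ∈ o' q

theorem mem_pair {A B : Part ℕ} {v : ℕ} :
    v ∈ (Nat.pair <$> A <*> B) ↔ ∃ a ∈ A, ∃ b ∈ B, Nat.pair a b = v := by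
  simp [Seq.seq]

theorem mem_rf {F : ℕ → Part ℕ} {v : ℕ} :
    v ∈ (Nat.rfind fun n => (fun m => decide (m = 0)) <$> F n) ↔
      0 ∈ F v ∧ ∀ m < v, ∃ w ∈ F m, w ≠ 0 := by
  refine Nat.mem_rfind.trans ?_
  constructor
  · rintro ⟨h1, h2⟩
    refine ⟨?_, fun m hm => ?_⟩
    · simpa using h1
    · simpa using h2 hm
  · rintro ⟨h1, h2⟩
    refine ⟨?_, fun {m} hm => ?_⟩
    · simpa using h1
    · simpa using h2 m hm

theorem OC.mono (c : OC) {o o' : ℕ →. ℕ} (h : Ext o o') : Ext (c.ev o) (c.ev o') := by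
  induction c with
  | zero => exact fun _ _ h => h
  | succ => exact fun _ _ h => h
  | left => exact fun _ _ h => h
  | right => exact fun _ _ h => h
  | orc => exact h
  | pair c d ih1 ih2 =>
    intro q v hv
    obtain ⟨a, ha, b, hb, rfl⟩ := mem_pair.1 hv
    exact mem_pair.2 ⟨a, ih1 _ _ ha, b, ih2 _ _ hb, rfl⟩
  | comp c d ih1 ih2 =>
    intro q v hv
    obtain ⟨a, ha, hb⟩ := Part.mem_bind_iff.1 hv
    exact Part.mem_bind_iff.2 ⟨a, ih2 _ _ ha, ih1 _ _ hb⟩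
  | prec c d ih1 ih2 =>
    intro q
    simp only [OC.ev]
    generalize q.unpair.2 = n
    induction n with
    | zero => exact ih1 _
    | succ n ih =>
      intro v hv
      obtain ⟨a, ha, hb⟩ := Part.mem_bind_iff.1 hv
      exact Part.mem_bind_iff.2 ⟨a, ih _ ha, ih2 _ _ hb⟩
  | rfind c ih =>
    intro q v hv
    obtain ⟨h1, h2⟩ := mem_rf.1 hv
    refine mem_rf.2 ⟨ih _ _ h1, fun m hm => ?_⟩
    obtain ⟨w, hw, hw0⟩ := h2 m hm
    exact ⟨w, ih _ _ hw, hw0⟩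

theorem OC.cont (c : OC) {o : ℕ →. ℕ} (A : ℕ → ℕ →. ℕ) (hA : ∀ n m, n ≤ m → Ext (A n) (A m))
    (hlim : ∀ q v, v ∈ o q → ∃ n, v ∈ A n q) :
    ∀ q v, v ∈ c.ev o q → ∃ n, v ∈ c.ev (A n) q := by
  induction c with
  | zero => exact fun _ _ h => ⟨0, h⟩
  | succ => exact fun _ _ h => ⟨0, h⟩
  | left => exact fun _ _ h => ⟨0, h⟩
  | right => exact fun _ _ h => ⟨0, h⟩
  | orc => exact hlim
  | pair c d ih1 ih2 =>
    intro q v hv
    obtain ⟨a, ha, b, hb, rfl⟩ := mem_pair.1 hv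
    obtain ⟨n, hn⟩ := ih1 _ _ ha
    obtain ⟨m, hm⟩ := ih2 _ _ hb
    exact ⟨max n m, mem_pair.2 ⟨a, c.mono (hA _ _ (le_max_left _ _)) _ _ hn, b,
      d.mono (hA _ _ (le_max_right _ _)) _ _ hm, rfl⟩⟩
  | comp c d ih1 ih2 =>
    intro q v hv
    obtain ⟨a, ha, hb⟩ := Part.mem_bind_iff.1 hv
    obtain ⟨n, hn⟩ := ih2 _ _ ha
    obtain ⟨m, hm⟩ := ih1 _ _ hb
    exact ⟨max n m, Part.mem_bind_iff.2 ⟨a, d.mono (hA _ _ (le_max_left _ _)) _ _ hn,
      c.mono (hA _ _ (le_max_right _ _)) _ _ hm⟩⟩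
  | prec c d ih1 ih2 =>
    intro q
    simp only [OC.ev]
    have hm : ∀ (n : ℕ) (o o' : ℕ →. ℕ), Ext o o' → ∀ v,
        v ∈ (OC.prec c d).ev o (Nat.pair q.unpair.1 n) →
        v ∈ (OC.prec c d).ev o' (Nat.pair q.unpair.1 n) :=
      fun n o o' h v hv => (OC.prec c d).mono h _ _ hv
    simp only [OC.ev, Nat.unpair_pair] at hm
    generalize q.unpair.2 = n
    induction n with
    | zero => exact ih1 _
    | succ n ih =>
      intro v hv
      obtain ⟨a, ha, hb⟩ := Part.mem_bind_iff.1 hv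
      obtain ⟨k, hk⟩ := ih _ ha
      obtain ⟨m, hm'⟩ := ih2 _ _ hb
      exact ⟨max k m, Part.mem_bind_iff.2 ⟨a, hm n _ _ (hA _ _ (le_max_left _ _)) _ hk,
        d.mono (hA _ _ (le_max_right _ _)) _ _ hm'⟩⟩
  | rfind c ih =>
    intro q v hv
    obtain ⟨h1, h2⟩ := mem_rf.1 hv
    obtain ⟨n, hn⟩ := ih _ _ h1
    have h3 : ∀ j ≤ v, ∃ N, ∀ m < j, ∃ w ∈ c.ev (A N) (Nat.pair q m), w ≠ 0 := by
      intro j
      induction j with
      | zero => exact fun _ => ⟨0, fun m hm => absurd hm (Nat.not_lt_zero _)⟩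
      | succ j ihj =>
        intro hj
        obtain ⟨N, hN⟩ := ihj (by omega)
        obtain ⟨w, hw, hw0⟩ := h2 j (by omega)
        obtain ⟨M, hM⟩ := ih _ _ hw
        refine ⟨max N M, fun m hm => ?_⟩
        rcases Nat.lt_succ_iff_lt_or_eq.1 hm with h | rfl
        · obtain ⟨w', hw', hw0'⟩ := hN m h
          exact ⟨w', c.mono (hA _ _ (le_max_left _ _)) _ _ hw', hw0'⟩
        · exact ⟨w, c.mono (hA _ _ (le_max_right _ _)) _ _ hM, hw0⟩
    obtain ⟨N, hN⟩ := h3 v le_rfl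
    refine ⟨max n N, mem_rf.2 ⟨c.mono (hA _ _ (le_max_left _ _)) _ _ hn, fun m hm => ?_⟩⟩
    obtain ⟨w', hw', hw0'⟩ := hN m hm
    exact ⟨w', c.mono (hA _ _ (le_max_right _ _)) _ _ hw', hw0'⟩

end Pool.Agent.H132Z.RT
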