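import Pool.Agent.H132Z.RT.Game

/-! Largeness notions that are hereditarily dense. -/

set_option autoImplicit false

namespace Pool.Agent.H132Z.RT

open Classical

theorem HD.tree {φ : Frame} {e : ℕ} {P : Node → Finset ℕ → Prop} (hP : Mono P) (h : HD φ e P)
    (B : Finset ℕ → Node → Finset ℕ → Prop) (hBm : ∀ Y, Mono (B Y)) (hB : ∀ Y, HD φ e (B Y)) :
    HD φ e (fun σ V => ∀ Inv : Finset ℕ → Prop, Inv ∅ →
      (∀ Y V', Inv Y → V' ⊆ V → B Y σ V' → ∃ w ∈ V', Inv (insert w Y)) →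
        ∃ Y ⊆ V, Inv Y ∧ P σ Y) := by
  intro ψ hle
  obtain ⟨r⟩ := ψ.ne
  have key := thread ψ e P hP (fun pool s => ∃ s', ψ.R ψ.base s s' ∧
      ∀ Inv : Finset ℕ → Prop,
        (∀ Y V', Inv Y → V' ⊆ ψ.X e s' → B Y (ψ.nd s') V' → ∃ w ∈ V', Inv (insert w Y)) →
        ∀ Y ∈ pool, Inv Y → ∃ Y' ⊆ ψ.X e s', Inv Y' ∧ P (ψ.nd s') Y') ?_ ?_ r
      ((h.le hle).lost r)
  · obtain ⟨s', _, hs'⟩ := key
    exact ⟨s', fun Inv h0 hc => hs' Inv hc ∅ (Finset.mem_singleton_self _) h0⟩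
  · intro pool s hp
    exact ⟨s, ψ.refl _ _ (ψ.base_a s), fun Inv _ Y hY hI => ⟨Y, (hp Y hY).1, hI, (hp Y hY).2⟩⟩
  · intro rest Y b n s hb1 hb2 hk
    obtain ⟨s1, h1, V, hV, hn, hBV⟩ := ((hB Y).le hle).dense s n
    have h1' : ψ.R b s s1 := ψ.mono _ _ _ _ hb2 h1
    obtain ⟨s2, h2, s', h3, hs'⟩ := hk s1 V h1' hV hn
    have h13 : ψ.R ψ.base s1 s' := ψ.trans _ _ _ _ (ψ.mono _ _ _ _ hb1 h2) h3
    refine ⟨s', ψ.trans _ _ _ _ (ψ.mono _ _ _ _ hb1 h1') h13, fun Inv hc Z hZ hI => ?_⟩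
    rcases Finset.mem_insert.1 hZ with rfl | hZ
    · obtain ⟨w, hw, hIw⟩ := hc Z V hI (hV.trans (ψ.Xmono _ _ _ _ h13))
        (hBm _ _ _ _ _ (ψ.ext_nd h13) subset_rfl hBV)
      exact hs' Inv hc _ (Finset.mem_union_right _ (Finset.mem_image_of_mem _ hw)) hIw
    · exact hs' Inv hc _ (Finset.mem_union_left _ hZ) hI

/-- The disjunction of two largeness notions over all partitions. -/
def Pig (P Q : Node → Finset ℕ → Prop) (σ : Node) (V : Finset ℕ) : Prop :=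
  ∀ A : ℕ → Prop, (∃ W ⊆ V, (∀ w ∈ W, A w) ∧ P σ W) ∨ (∃ W ⊆ V, (∀ w ∈ W, ¬ A w) ∧ Q σ W)

theorem HD.pig {φ : Frame} {e : ℕ} {P Q : Node → Finset ℕ → Prop} (hP : Mono P) (hQ : Mono Q)
    (h : HD φ e P) (h' : HD φ e Q) : HD φ e (Pig P Q) := by
  refine (h.tree hP (fun _ => Q) (fun _ => hQ) (fun _ => h')).imp ?_
  intro σ V H A
  by_cases hq : ∃ W ⊆ V, (∀ w ∈ W, ¬ A w) ∧ Q σ W
  · exact Or.inr hq
  · left
    exact H (fun Y => ∀ w ∈ Y, A w) (by simp) (by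
      intro Y V' hI hV' hQV'
      by_contra hc
      apply hq
      refine ⟨V', hV', fun w hw hA => hc ⟨w, hw, ?_⟩, hQV'⟩
      intro v hv
      rcases Finset.mem_insert.1 hv with rfl | hv
      · exact hA
      · exact hI v hv)

theorem HD.nonempty (φ : Frame) (e : ℕ) : HD φ e (fun _ V => V.Nonempty) := by
  intro ψ _
  obtain ⟨r⟩ := ψ.ne
  obtain ⟨t, _, z, hz, _⟩ := ψ.inf e r 0
  exact ⟨t, z, hz⟩

/-- Either a class of an element of `Y` is large, or there is a new class. -/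
def NewC (P : Node → Finset ℕ → Prop) (Y : Finset ℕ) (σ : Node) (V : Finset ℕ) : Prop :=
  ∀ core : ℕ → ℕ, (∃ c, ∃ W ⊆ V, (∀ w ∈ W, core w = c) ∧ P σ W) ∨
    ∃ w ∈ V, ∀ y ∈ Y, core w ≠ core y

theorem NewC.mono {P : Node → Finset ℕ → Prop} (hP : Mono P) (Y : Finset ℕ) :
    Mono (NewC P Y) := by
  intro σ σ' V V' h1 h2 H core
  rcases H core with ⟨c, W, hW, hc, hc'⟩ | ⟨w, hw, h⟩
  · exact Or.inl ⟨c, W, hW.trans h2, hc, hP _ _ _ _ h1 subset_rfl hc'⟩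
  · exact Or.inr ⟨w, h2 hw, h⟩

theorem HD.newC {φ : Frame} {e : ℕ} {P : Node → Finset ℕ → Prop} (hP : Mono P) (h : HD φ e P)
    (Y : Finset ℕ) : HD φ e (NewC P Y) := by
  induction Y using Finset.induction_on with
  | empty =>
    refine (HD.nonempty φ e).imp ?_
    rintro σ V ⟨w, hw⟩ core
    exact Or.inr ⟨w, hw, by simp⟩
  | insert y Y _ ih =>
    refine (h.pig hP (NewC.mono hP Y) ih).imp ?_
    intro σ V H core
    rcases H (fun w => core w = core y) with h1 | ⟨W, hW, h0, h1⟩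
    · exact Or.inl ⟨_, h1⟩
    · rcases h1 core with ⟨c, W', hW', hc⟩ | ⟨w, hw, h2⟩
      · exact Or.inl ⟨c, W', hW'.trans hW, hc⟩
      · refine Or.inr ⟨w, hW hw, fun y' hy' => ?_⟩
        rcases Finset.mem_insert.1 hy' with rfl | hy'
        · exact h0 w hw
        · exact h2 y' hy'

/-- A large subset on which a given function is constant or injective. -/
def CI (P : Node → Finset ℕ → Prop) (σ : Node) (V : Finset ℕ) : Prop :=
  ∀ core : ℕ → ℕ, ∃ W ⊆ V, P σ W ∧ ((∃ c, ∀ w ∈ W, core w = c) ∨ Set.InjOn core W)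

theorem CI.mono {P : Node → Finset ℕ → Prop} (hP : Mono P) : Mono (CI P) := by
  intro σ σ' V V' h1 h2 H core
  obtain ⟨W, hW, h3, h4⟩ := H core
  exact ⟨W, hW.trans h2, hP _ _ _ _ h1 subset_rfl h3, h4⟩

theorem HD.ci {φ : Frame} {e : ℕ} {P : Node → Finset ℕ → Prop} (hP : Mono P) (h : HD φ e P) :
    HD φ e (CI P) := by
  refine (h.tree hP (NewC P) (NewC.mono hP) (h.newC hP)).imp ?_
  intro σ V H core
  by_cases hc : ∃ c, ∃ W ⊆ V, (∀ w ∈ W, core w = c) ∧ P σ W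
  · obtain ⟨c, W, hW, hc, hc'⟩ := hc
    exact ⟨W, hW, hc', Or.inl ⟨c, hc⟩⟩
  · obtain ⟨Y, hY, hI, hPY⟩ := H (fun Y => Set.InjOn core Y) (by simp) (by
      intro Y V' hI hV' hN
      rcases hN core with ⟨c, W, hW, h1⟩ | ⟨w, hw, h1⟩
      · exact absurd ⟨c, W, hW.trans hV', h1⟩ hc
      · refine ⟨w, hw, ?_⟩
        intro u hu v hv huv
        simp only [Finset.coe_insert, Set.mem_insert_iff, Finset.mem_coe] at hu hv
        rcases hu with rfl | hu <;> rcases hv with rfl | hv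
        · rfl
        · exact absurd huv (h1 v hv)
        · exact absurd huv.symm (h1 u hu)
        · exact hI hu hv huv)
    exact ⟨Y, hY, hPY, Or.inr hI⟩

/-- A large class for every function into the finite set `T`. -/
def TP (P : Node → Finset ℕ → Prop) (T : Finset (Finset ℕ)) (σ : Node) (V : Finset ℕ) : Prop :=
  ∀ ty : ℕ → Finset ℕ, (∀ w ∈ V, ty w ∈ T) → ∃ t ∈ T, ∃ W ⊆ V, (∀ w ∈ W, ty w = t) ∧ P σ W

theorem TP.mono {P : Node → Finset ℕ → Prop} (hP : Mono P) (T : Finset (Finset ℕ)) :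
    Mono (TP P T) := by
  intro σ σ' V V' h1 h2 H ty hty
  obtain ⟨t, ht, W, hW, h3, h4⟩ := H ty (fun w hw => hty w (h2 hw))
  exact ⟨t, ht, W, hW.trans h2, h3, hP _ _ _ _ h1 subset_rfl h4⟩

theorem HD.tp {φ : Frame} {e : ℕ} {P : Node → Finset ℕ → Prop} (hP : Mono P) (h : HD φ e P)
    (T : Finset (Finset ℕ)) : HD φ e (TP P T) := by
  induction T using Finset.induction_on with
  | empty =>
    refine (HD.nonempty φ e).imp ?_
    rintro σ V ⟨w, hw⟩ ty hty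
    exact absurd (hty w hw) (by simp)
  | insert t T _ ih =>
    refine (h.pig hP (TP.mono hP T) ih).imp ?_
    intro σ V H ty hty
    rcases H (fun w => ty w = t) with h1 | ⟨W, hW, h0, h1⟩
    · exact ⟨t, Finset.mem_insert_self _ _, h1⟩
    · obtain ⟨t', ht', W', hW', h2⟩ := h1 ty (by
        intro w hw
        exact (Finset.mem_insert.1 (hty w (hW hw))).resolve_left (h0 w hw))
      exact ⟨t', Finset.mem_insert_of_mem ht', W', hW'.trans hW, h2⟩

/-- An event relation: monotone in the node, with outputs below the length of the node. -/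
structure Ev (E : Node → Finset ℕ → ℕ → Prop) : Prop where
  mono : ∀ σ σ' Y x, σ <+: σ' → E σ Y x → E σ' Y x
  lt : ∀ σ Y x, E σ Y x → x < σ.length

/-- The set contains an event with an output `≥ k`. -/
def Has (E : Node → Finset ℕ → ℕ → Prop) (k : ℕ) (σ : Node) (V : Finset ℕ) : Prop :=
  ∃ Y ⊆ V, ∃ x, k ≤ x ∧ E σ Y x

theorem Has.mono {E : Node → Finset ℕ → ℕ → Prop} (hE : Ev E) (k : ℕ) : Mono (Has E k) := by
  rintro σ σ' V V' h1 h2 ⟨Y, hY, x, hx, h⟩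
  exact ⟨Y, hY.trans h2, x, hx, hE.mono _ _ _ _ h1 h⟩

/-- The set contains events that avoid any `N` outputs and vertices. -/
def Rob (E : Node → Finset ℕ → ℕ → Prop) (k N : ℕ) (σ : Node) (V : Finset ℕ) : Prop :=
  ∀ D Rm : Finset ℕ, D.card + Rm.card ≤ N →
    ∃ Y ⊆ V, Disjoint Y Rm ∧ ∃ x, k ≤ x ∧ x ∉ D ∧ E σ Y x

theorem Rob.mono {E : Node → Finset ℕ → ℕ → Prop} (hE : Ev E) (k N : ℕ) : Mono (Rob E k N) := by
  intro σ σ' V V' h1 h2 H D Rm h
  obtain ⟨Y, hY, hd, x, hx, hxD, h3⟩ := H D Rm h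
  exact ⟨Y, hY.trans h2, hd, x, hx, hxD, hE.mono _ _ _ _ h1 h3⟩

theorem HD.rob {φ : Frame} {e : ℕ} {E : Node → Finset ℕ → ℕ → Prop} (hE : Ev E)
    (h : ∀ k, HD φ e (Has E k)) (k N : ℕ) : HD φ e (Rob E k N) := by
  induction N with
  | zero =>
    refine (h k).imp ?_
    rintro σ V ⟨Y, hY, x, hx, h1⟩ D Rm h2
    have h3 : D = ∅ := Finset.card_eq_zero.1 (by omega)
    have h4 : Rm = ∅ := Finset.card_eq_zero.1 (by omega)
    subst h3 h4
    exact ⟨Y, hY, by simp, x, hx, by simp, h1⟩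
  | succ N ih =>
    intro ψ hle
    obtain ⟨s, hs⟩ := ih ψ hle
    obtain ⟨t, ht, V, hV, hn, Y, hY, y, hy, hEy⟩ :=
      ((h (max k (ψ.nd s).length)).le hle).dense s (ψ.nd s).length
    refine ⟨t, fun D Rm hc => ?_⟩
    have hsub : ψ.X e s ⊆ ψ.X e t := ψ.Xmono _ _ _ _ ht
    by_cases h1 : y ∈ D
    · obtain ⟨Y', hY', hd, x, hx, hxD, h3⟩ := hs (D.erase y) Rm (by
        rw [Finset.card_erase_of_mem h1]
        have := Finset.card_pos.2 ⟨y, h1⟩
        omega)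
      refine ⟨Y', hY'.trans hsub, hd, x, hx, fun hx' => hxD (Finset.mem_erase.2 ⟨?_, hx'⟩),
        hE.mono _ _ _ _ (ψ.ext_nd ht) h3⟩
      have := hE.lt _ _ _ h3
      have := le_of_max_le_right hy
      omega
    · by_cases h2 : Disjoint Y Rm
      · exact ⟨Y, hY.trans hV, h2, y, le_of_max_le_left hy, h1, hEy⟩
      · obtain ⟨r, hr1, hr2⟩ := Finset.not_disjoint_iff.1 h2
        obtain ⟨Y', hY', hd, x, hx, hxD, h3⟩ := hs D (Rm.erase r) (by
          rw [Finset.card_erase_of_mem hr2]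
          have := Finset.card_pos.2 ⟨r, hr2⟩
          omega)
        refine ⟨Y', hY'.trans hsub, ?_, x, hx, hxD, hE.mono _ _ _ _ (ψ.ext_nd ht) h3⟩
        rw [Finset.disjoint_left] at hd ⊢
        intro z hz hz'
        refine hd hz (Finset.mem_erase.2 ⟨?_, hz'⟩)
        have h5 := ψ.Xlt _ _ _ (hY' hz)
        have h6 := hn r (hY hr1)
        omega

/-- The largeness notion of the batches. -/
def Big (E : Node → Finset ℕ → ℕ → Prop) (k m : ℕ) (T : Finset (Finset ℕ)) (σ : Node)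
    (V : Finset ℕ) : Prop :=
  ∀ (ty : ℕ → Finset ℕ) (core : ℕ → ℕ), (∀ w ∈ V, ty w ∈ T) → ∃ t ∈ T, ∃ c : ℕ,
    ∀ D D0 : Finset ℕ, D.card ≤ m → D0.card ≤ m → c ∉ D →
      ∃ Y ⊆ V, (∀ w ∈ Y, ty w = t) ∧ ∃ y, k ≤ y ∧ y ∉ D0 ∧ E σ Y y ∧
        ∀ w ∈ Y, ∀ w' ∈ Y, core w ∈ insert y D → core w' ∈ insert y D → w = w'

theorem HD.big {φ : Frame} {e : ℕ} {E : Node → Finset ℕ → ℕ → Prop} (hE : Ev E)
    (h : ∀ k, HD φ e (Has E k)) (k m : ℕ) (T : Finset (Finset ℕ)) : HD φ e (Big E k m T) := by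
  have h1 := Rob.mono hE k (2 * m + 1)
  refine (((HD.rob hE h k (2 * m + 1)).ci h1).tp (CI.mono h1) T).imp ?_
  intro σ V H ty core hty
  obtain ⟨t, ht, W0, hW0, hW0t, H1⟩ := H ty hty
  obtain ⟨W, hW, hR, hc⟩ := H1 core
  have hWV : W ⊆ V := hW.trans hW0
  have hWt : ∀ w ∈ W, ty w = t := fun w hw => hW0t w (hW hw)
  rcases hc with ⟨c, hc⟩ | hc
  · refine ⟨t, ht, c, fun D D0 hD hD0 hcD => ?_⟩
    obtain ⟨Y, hY, _, y, hy, hyD, hEy⟩ := hR (insert c D0) ∅ (by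
      have := Finset.card_insert_le c D0
      simp only [Finset.card_empty]
      omega)
    refine ⟨Y, hY.trans hWV, fun w hw => hWt w (hY hw), y, hy,
      fun h => hyD (Finset.mem_insert_of_mem h), hEy, fun w hw _ _ h2 _ => ?_⟩
    rw [hc w (hY hw)] at h2
    rcases Finset.mem_insert.1 h2 with rfl | h2
    · exact absurd (Finset.mem_insert_self _ _) hyD
    · exact absurd h2 hcD
  · refine ⟨t, ht, 0, fun D D0 hD hD0 _ => ?_⟩
    have hcard : (W.filter (fun w => core w ∈ D)).card ≤ D.card := by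
      refine Finset.card_le_card_of_injOn core (fun w hw => ?_) ?_
      · exact (Finset.mem_filter.1 hw).2
      · exact hc.mono (fun w hw => (Finset.mem_filter.1 hw).1)
    obtain ⟨Y, hY, hd, y, hy, hyD, hEy⟩ := hR D0 (W.filter (fun w => core w ∈ D)) (by omega)
    refine ⟨Y, hY.trans hWV, fun w hw => hWt w (hY hw), y, hy, hyD, hEy,
      fun w hw w' hw' h2 h3 => ?_⟩
    have h4 : ∀ v ∈ Y, core v ∈ insert y D → core v = y := by
      intro v hv h5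
      refine (Finset.mem_insert.1 h5).resolve_right (fun h6 => ?_)
      exact Finset.disjoint_left.1 hd hv (Finset.mem_filter.2 ⟨hY hv, h6⟩)
    exact hc (hY hw) (hY hw') ((h4 w hw h2).trans (h4 w' hw' h3).symm)

end Pool.Agent.H132Z.RT
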