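import Pool.Agent.H132Z.RT.Refute

/-! Conditions and the main step of the construction. -/

set_option autoImplicit false

namespace Pool.Agent.H132Z.RT

open Classical

/-- Families of relations: `D e σ u v b` says that the node `σ` decides that the pair `(u, v)` has
the colour `b` in the colouring number `e`. -/
abbrev DecT := ℕ → Node → ℕ → ℕ → Bool → Prop

/-- Monotone families. -/
def DMono (D : DecT) : Prop := ∀ e σ σ' u v b, σ <+: σ' → D e σ u v b → D e σ' u v b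

/-- The node decides that `E` avoids the pattern. -/
def PAv (D : DecT) (e : ℕ) (σ : Node) (E : Finset ℕ) : Prop :=
  ∀ x ∈ E, ∀ y ∈ E, ∀ z ∈ E, x < y → y < z →
    D e σ x y true ∨ D e σ x z false ∨ D e σ y z false

/-- Admissible sets for the side `sd`. -/
def Adm (D : DecT) (sd : Bool) (e : ℕ) (σ : Node) (E : Finset ℕ) : Prop :=
  PAv D e σ E ∧ (sd = true → ∀ u ∈ E, ∀ v ∈ E, u < v → D e σ u v true)

theorem Adm.mono {D : DecT} (hD : DMono D) {sd : Bool} {e : ℕ} {σ σ' : Node} {E E' : Finset ℕ}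
    (h1 : σ <+: σ') (h2 : E' ⊆ E) (h : Adm D sd e σ E) : Adm D sd e σ' E' := by
  refine ⟨fun x hx y hy z hz hxy hyz => ?_, fun hs u hu v hv huv => ?_⟩
  · rcases h.1 x (h2 hx) y (h2 hy) z (h2 hz) hxy hyz with h | h | h
    · exact Or.inl (hD _ _ _ _ _ _ h1 h)
    · exact Or.inr (Or.inl (hD _ _ _ _ _ _ h1 h))
    · exact Or.inr (Or.inr (hD _ _ _ _ _ _ h1 h))
  · exact hD _ _ _ _ _ _ h1 (h.2 hs u (h2 hu) v (h2 hv) huv)

/-- The colouring number `e` is total, hereditarily. -/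
def Tot (D : DecT) (φ : Frame) (e : ℕ) : Prop :=
  ∀ φ', FLe φ' φ → ∀ u v, u < v → ∃ s b, D e (φ'.nd s) u v b

theorem stab1 {D : DecT} (hD : DMono D) (φ : Frame) (e u : ℕ) (hT : Tot D φ e)
    (hu : ∀ s, ∀ z ∈ φ.X e s, u < z) :
    ∃ φ', FLe φ' φ ∧ ∃ b, ∀ s, ∀ z ∈ φ'.X e s, D e (φ'.nd s) u z b := by
  have hm : ∀ (ψ : Frame) (c : Bool) b s t, ψ.R b s t →
      (ψ.X e s).filter (fun z => D e (ψ.nd s) u z c) ⊆
        (ψ.X e t).filter (fun z => D e (ψ.nd t) u z c) := by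
    intro ψ c b s t h z hz
    obtain ⟨h1, h2⟩ := Finset.mem_filter.1 hz
    exact Finset.mem_filter.2 ⟨ψ.Xmono _ _ _ _ h h1, hD _ _ _ _ _ _ (ψ.ext_nd h) h2⟩
  have hfin : ∀ (ψ : Frame) (c : Bool), FLe ψ φ →
      (∀ s n, ∃ t, ψ.R (ψ.a s) s t ∧
        ∃ z ∈ (ψ.X e t).filter (fun z => D e (ψ.nd t) u z c), n < z) →
      ∃ φ', FLe φ' φ ∧ ∃ b, ∀ s, ∀ z ∈ φ'.X e s, D e (φ'.nd s) u z b := by
    intro ψ c hle h
    refine ⟨ψ.shrink e _ (fun s => Finset.filter_subset _ _) (hm ψ c) h,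
      (ψ.shrink_le _ _ _ _ _).trans hle, c, fun s z hz => ?_⟩
    rw [ψ.shrink_X e _ _ _ _ s] at hz
    exact (Finset.mem_filter.1 hz).2
  by_cases h : ∀ s n, ∃ t, φ.R (φ.a s) s t ∧
      ∃ z ∈ (φ.X e t).filter (fun z => D e (φ.nd t) u z false), n < z
  · exact hfin φ false (FLe.rfl' φ) h
  · push Not at h
    obtain ⟨r, n0, hr⟩ := h
    refine hfin (φ.at r) true (φ.at_le r) (fun s n => ?_)
    obtain ⟨t, ht, z, hz, hn⟩ := (φ.at r).inf e s (max n n0)
    obtain ⟨t', b, hb⟩ := hT _ (((φ.at r).at_le t).trans (φ.at_le r)) u z (hu t.1 z hz)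
    have h1 : (φ.at r).R ((φ.at r).a t) t t'.1 := t'.2
    have h2 : (φ.at r).R ((φ.at r).a s) t t'.1 :=
      (φ.at r).mono _ _ _ _ ((φ.at r).ra _ _ _ ht).2.1 h1
    have hz' : z ∈ (φ.at r).X e t'.1 := (φ.at r).Xmono _ _ _ _ h1 hz
    refine ⟨t'.1, (φ.at r).trans _ _ _ _ ht h2, z, Finset.mem_filter.2 ⟨hz', ?_⟩,
      lt_of_le_of_lt (le_max_left _ _) hn⟩
    cases b with
    | true => exact hb
    | false =>
      have := hr t'.1.1 t'.1.2 z (Finset.mem_filter.2 ⟨hz', hb⟩)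
      have := lt_of_le_of_lt (le_max_right _ _) hn
      omega

theorem stabS {D : DecT} (φ : Frame) (hD : DMono D) (e : ℕ) (S : Finset ℕ) (hT : Tot D φ e)
    (hu : ∀ s, ∀ z ∈ φ.X e s, ∀ u ∈ S, u < z) :
    ∃ φ', FLe φ' φ ∧ ∃ β : ℕ → Bool, ∀ s, ∀ z ∈ φ'.X e s, ∀ u ∈ S, D e (φ'.nd s) u z (β u) := by
  induction S using Finset.induction_on with
  | empty => exact ⟨φ, FLe.rfl' φ, fun _ => true, by simp⟩
  | insert u S hS ih =>
    obtain ⟨φ1, h1, β, hβ⟩ := ih (fun s z hz v hv => hu s z hz v (Finset.mem_insert_of_mem hv))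
    obtain ⟨φ2, h2, b, hb⟩ := stab1 hD φ1 e u (fun ψ h => hT ψ (h.trans h1)) (by
      intro s z hz
      obtain ⟨s', _, hX⟩ := h1.2.2 s
      exact hu s' z (hX e hz) u (Finset.mem_insert_self _ _))
    refine ⟨φ2, h2.trans h1, Function.update β u b, fun s z hz v hv => ?_⟩
    rcases Finset.mem_insert.1 hv with rfl | hv
    · rw [Function.update_self]
      exact hb s z hz
    · rw [Function.update_of_ne (fun (h : v = u) => hS (h ▸ hv))]
      obtain ⟨s', hs', hX⟩ := h2.2.2 s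
      rw [← hs']
      exact hβ s' z (hX e hz) v hv

/-- Conditions: a frame, and two stems for every colouring. -/
structure Cond (D : DecT) : Type 1 where
  φ : Frame
  F : Bool → ℕ → Finset ℕ
  adm : ∀ sd e, Adm D sd e φ.s0 (F sd e)
  lt : ∀ sd e s, ∀ z ∈ φ.X e s, ∀ u ∈ F sd e, u < z
  stab : ∀ sd e, ∃ β : ℕ → Bool,
    (∀ s, ∀ z ∈ φ.X e s, ∀ u ∈ F sd e, D e (φ.nd s) u z (β u)) ∧
    (∀ u ∈ F sd e, ∀ v ∈ F sd e, u < v → β u = true → β v = true → D e φ.s0 u v true) ∧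
    (sd = true → ∀ u ∈ F sd e, β u = true)

/-- Extension of conditions. -/
def CLe {D : DecT} (c' c : Cond D) : Prop :=
  c.φ.base <+: c'.φ.base ∧ Ob c.φ.base c.φ.s0 c'.φ.s0 ∧ (∀ sd e, c.F sd e ⊆ c'.F sd e) ∧
    ∀ t : c'.φ.St, ∃ s : c.φ.St, c.φ.nd s = c'.φ.nd t ∧
      ∀ e, c'.φ.X e t ⊆ c.φ.X e s ∧ ∀ sd, c'.F sd e ⊆ c.F sd e ∪ c.φ.X e s

theorem CLe.rfl' {D : DecT} (c : Cond D) : CLe c c :=
  ⟨List.prefix_refl _, Ob.rfl' _ _, fun _ _ => subset_rfl,
    fun t => ⟨t, rfl, fun _ => ⟨subset_rfl, fun _ => Finset.subset_union_left⟩⟩⟩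

theorem CLe.trans {D : DecT} {c1 c2 c3 : Cond D} (h1 : CLe c1 c2) (h2 : CLe c2 c3) :
    CLe c1 c3 := by
  refine ⟨h2.1.trans h1.1, h2.2.1.trans (h1.2.1.mono h2.1),
    fun sd e => (h2.2.2.1 sd e).trans (h1.2.2.1 sd e), fun t => ?_⟩
  obtain ⟨s, hs, hX⟩ := h1.2.2.2 t
  obtain ⟨r, hr, hX'⟩ := h2.2.2.2 s
  refine ⟨r, hr.trans hs, fun e => ⟨(hX e).1.trans (hX' e).1, fun sd => ?_⟩⟩
  exact ((hX e).2 sd).trans (Finset.union_subset ((hX' e).2 sd)
    ((hX' e).1.trans Finset.subset_union_right))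

/-- The initial condition. -/
def initCond (D : DecT) : Cond D where
  φ := initFrame
  F := fun _ _ => ∅
  adm := fun _ _ => ⟨by simp [PAv], by simp⟩
  lt := by simp
  stab := fun _ _ => ⟨fun _ => true, by simp, by simp, by simp⟩

theorem extend {D : DecT} (hD : DMono D) (c : Cond D) (sd : Bool) (e : ℕ) (s : c.φ.St)
    (E : Finset ℕ) (hE : E ⊆ c.φ.X e s) (hadm : Adm D sd e (c.φ.nd s) E) (ψ : Frame)
    (hψ : FLe ψ c.φ) (hs0 : E.Nonempty → c.φ.nd s <+: ψ.s0)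
    (hX : ∀ t : ψ.St, ∃ s' : c.φ.St, c.φ.nd s' = ψ.nd t ∧ (∀ e', ψ.X e' t ⊆ c.φ.X e' s') ∧
      E ⊆ c.φ.X e s')
    (β' : ℕ → Bool) (hβ' : ∀ t, ∀ z ∈ ψ.X e t, ∀ u ∈ E, u < z ∧ D e (ψ.nd t) u z (β' u))
    (hval : ∀ u ∈ E, ∀ v ∈ E, u < v → β' u = true → β' v = true → D e (c.φ.nd s) u v true)
    (hsd : sd = true → ∀ u ∈ E, β' u = true) :
    ∃ c' : Cond D, CLe c' c ∧ c'.φ = ψ ∧ c'.F sd e = c.F sd e ∪ E := by
  have hs : c.φ.s0 <+: ψ.s0 := hψ.2.1.1
  let F' : Bool → ℕ → Finset ℕ := fun sd' e' =>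
    if sd' = sd ∧ e' = e then c.F sd' e' ∪ E else c.F sd' e'
  have hF1 : F' sd e = c.F sd e ∪ E := by simp [F']
  have hF2 : ∀ sd' e', ¬ (sd' = sd ∧ e' = e) → F' sd' e' = c.F sd' e' := by
    intro sd' e' h
    simp only [F', h, if_false]
  obtain ⟨β, hβ1, hβ2, hβ3⟩ := c.stab sd e
  have hFE : ∀ u ∈ c.F sd e, ∀ z ∈ E, u < z ∧ D e ψ.s0 u z (β u) := fun u hu z hz =>
    ⟨c.lt sd e s z (hE hz) u hu, hD _ _ _ _ _ _ (hs0 ⟨z, hz⟩) (hβ1 s z (hE hz) u hu)⟩
  refine ⟨⟨ψ, F', ?_, ?_, ?_⟩, ⟨hψ.1, hψ.2.1, ?_, ?_⟩, rfl, hF1⟩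
  · intro sd' e'
    by_cases h : sd' = sd ∧ e' = e
    · obtain ⟨rfl, rfl⟩ := h
      rw [hF1]
      have hA := (c.adm sd' e').mono hD hs subset_rfl
      refine ⟨fun x hx y hy z hz hxy hyz => ?_, fun h u hu v hv huv => ?_⟩
      · rcases Finset.mem_union.1 hz with hz | hz
        · have hy' : y ∈ c.F sd' e' := (Finset.mem_union.1 hy).resolve_right
            (fun hy => by have := (hFE z hz y hy).1; omega)
          have hx' : x ∈ c.F sd' e' := (Finset.mem_union.1 hx).resolve_right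
            (fun hx => by have := (hFE z hz x hx).1; omega)
          exact hA.1 x hx' y hy' z hz hxy hyz
        · rcases Finset.mem_union.1 hx with hx | hx
          · have h1 := (hFE x hx z hz).2
            cases hbx : β x with
            | false => rw [hbx] at h1; exact Or.inr (Or.inl h1)
            | true =>
              rcases Finset.mem_union.1 hy with hy | hy
              · have h2 := (hFE y hy z hz).2
                cases hby : β y with
                | false => rw [hby] at h2; exact Or.inr (Or.inr h2)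
                | true => exact Or.inl (hD _ _ _ _ _ _ hs (hβ2 x hx y hy hxy hbx hby))
              · have h2 := (hFE x hx y hy).2
                rw [hbx] at h2
                exact Or.inl h2
          · have hy' : y ∈ E := (Finset.mem_union.1 hy).resolve_left
              (fun hy => by have := (hFE y hy x hx).1; omega)
            exact (hadm.mono hD (hs0 ⟨x, hx⟩) subset_rfl).1 x hx y hy' z hz hxy hyz
      · rcases Finset.mem_union.1 hu with hu | hu
        · rcases Finset.mem_union.1 hv with hv | hv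
          · exact hA.2 h u hu v hv huv
          · have h1 := (hFE u hu v hv).2
            rwa [hβ3 h u hu] at h1
        · have hv' : v ∈ E := (Finset.mem_union.1 hv).resolve_left
            (fun hv => by have := (hFE v hv u hu).1; omega)
          exact (hadm.mono hD (hs0 ⟨u, hu⟩) subset_rfl).2 h u hu v hv' huv
    · rw [hF2 _ _ h]
      exact (c.adm sd' e').mono hD hs subset_rfl
  · intro sd' e' t z hz u hu
    obtain ⟨s', _, h1, _⟩ := hX t
    by_cases h : sd' = sd ∧ e' = e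
    · obtain ⟨rfl, rfl⟩ := h
      rw [hF1] at hu
      rcases Finset.mem_union.1 hu with hu | hu
      · exact c.lt _ _ s' z (h1 _ hz) u hu
      · exact (hβ' t z hz u hu).1
    · rw [hF2 _ _ h] at hu
      exact c.lt _ _ s' z (h1 _ hz) u hu
  · intro sd' e'
    by_cases h : sd' = sd ∧ e' = e
    · obtain ⟨rfl, rfl⟩ := h
      rw [hF1]
      have hdis : ∀ u ∈ E, u ∉ c.F sd' e' := fun u hu hu' => lt_irrefl _ (hFE u hu' u hu).1
      refine ⟨fun u => if u ∈ c.F sd' e' then β u else β' u, ?_, ?_, ?_⟩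
      · intro t z hz u hu
        obtain ⟨s', h0, h1, _⟩ := hX t
        rcases Finset.mem_union.1 hu with hu | hu
        · simp only [hu, if_true]
          rw [← h0]
          exact hβ1 s' z (h1 _ hz) u hu
        · simp only [hdis u hu, if_false]
          exact (hβ' t z hz u hu).2
      · intro u hu v hv huv h1 h2
        rcases Finset.mem_union.1 hu with hu | hu
        · simp only [hu, if_true] at h1
          rcases Finset.mem_union.1 hv with hv | hv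
          · simp only [hv, if_true] at h2
            exact hD _ _ _ _ _ _ hs (hβ2 u hu v hv huv h1 h2)
          · have h3 := (hFE u hu v hv).2
            rwa [h1] at h3
        · have hv' : v ∈ E := (Finset.mem_union.1 hv).resolve_left
            (fun hv => by have := (hFE v hv u hu).1; omega)
          simp only [hdis u hu, if_false] at h1
          simp only [hdis v hv', if_false] at h2
          exact hD _ _ _ _ _ _ (hs0 ⟨u, hu⟩) (hval u hu v hv' huv h1 h2)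
      · intro h u hu
        rcases Finset.mem_union.1 hu with hu | hu
        · simp only [hu, if_true]
          exact hβ3 h u hu
        · simp only [hdis u hu, if_false]
          exact hsd h u hu
    · rw [hF2 _ _ h]
      obtain ⟨γ, h1, h2, h3⟩ := c.stab sd' e'
      refine ⟨γ, fun t z hz u hu => ?_,
        fun u hu v hv huv h4 h5 => hD _ _ _ _ _ _ hs (h2 u hu v hv huv h4 h5), h3⟩
      obtain ⟨s', h0, h4, _⟩ := hX t
      rw [← h0]
      exact h1 s' z (h4 _ hz) u hu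
  · intro sd' e'
    show c.F sd' e' ⊆ F' sd' e'
    by_cases h : sd' = sd ∧ e' = e
    · obtain ⟨rfl, rfl⟩ := h
      rw [hF1]
      exact Finset.subset_union_left
    · rw [hF2 _ _ h]
  · intro t
    obtain ⟨s', h0, h1, h2⟩ := hX t
    refine ⟨s', h0, fun e' => ⟨h1 e', fun sd' => ?_⟩⟩
    show F' sd' e' ⊆ _
    by_cases h : sd' = sd ∧ e' = e
    · obtain ⟨rfl, rfl⟩ := h
      rw [hF1]
      exact Finset.union_subset_union subset_rfl h2
    · rw [hF2 _ _ h]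
      exact Finset.subset_union_left

theorem ofLe {D : DecT} (hD : DMono D) (c : Cond D) (ψ : Frame) (hψ : FLe ψ c.φ) (sd : Bool)
    (e : ℕ) : ∃ c' : Cond D, CLe c' c ∧ c'.φ = ψ ∧ c'.F sd e = c.F sd e := by
  obtain ⟨s⟩ := c.φ.ne
  obtain ⟨c', h1, h2, h3⟩ := extend hD c sd e s ∅ (by simp) ⟨by simp [PAv], by simp⟩ ψ hψ
    (by simp) (fun t => by
      obtain ⟨s', h1, h2⟩ := hψ.2.2 t
      exact ⟨s', h1, h2, by simp⟩) (fun _ => true) (by simp) (by simp) (by simp)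
  exact ⟨c', h1, h2, by simpa using h3⟩

/-- Output relations. -/
structure OutR (O : Node → Finset ℕ → ℕ → Prop) : Prop where
  loc : ∀ σ σ' S S' x, σ <+: σ' → (∀ z < σ.length, z ∈ S ↔ z ∈ S') → O σ S x → O σ' S' x
  lt : ∀ σ S x, O σ S x → x < σ.length

/-- The requirement is met by an output with the promise `i`. -/
def WinR {D : DecT} (c : Cond D) (e : ℕ) (sd : Bool) (O : Node → Finset ℕ → ℕ → Prop) (i : Bool) :
    Prop :=
  ∃ σ x, σ <+: c.φ.s0 ∧ O σ (c.F sd e) x ∧ x < c.φ.base.length ∧ c.φ.base.getD x false = i ∧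
    ∀ s, ∀ z ∈ c.φ.X e s, σ.length ≤ z

/-- The outputs are bounded. -/
def Sil {D : DecT} (c : Cond D) (e : ℕ) (sd : Bool) (O : Node → Finset ℕ → ℕ → Prop) : Prop :=
  ∃ k, ∀ s E, E ⊆ c.φ.X e s → Adm D sd e (c.φ.nd s) E → ∀ x, k ≤ x →
    ¬ O (c.φ.nd s) (c.F sd e ∪ E) x

/-- The colouring number `e` is not total. -/
def Par {D : DecT} (c : Cond D) (e : ℕ) : Prop :=
  ∃ u v, u < v ∧ ∀ s b, ¬ D e (c.φ.nd s) u v b

theorem ev_of {D : DecT} (hD : DMono D) {O : Node → Finset ℕ → ℕ → Prop} (hO : OutR O)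
    (sd : Bool) (e : ℕ) (F : Finset ℕ) :
    Ev (fun σ E x => Adm D sd e σ E ∧ O σ (F ∪ E) x) :=
  ⟨fun _ _ _ _ h h1 => ⟨h1.1.mono hD h subset_rfl, hO.loc _ _ _ _ _ h (fun _ _ => Iff.rfl) h1.2⟩,
    fun _ _ _ h => hO.lt _ _ _ h.2⟩

theorem sil_of {D : DecT} (hD : DMono D) (c : Cond D) (e : ℕ) (sd : Bool)
    (O : Node → Finset ℕ → ℕ → Prop) (k : ℕ)
    (h : ¬ HD c.φ e (Has (fun σ E x => Adm D sd e σ E ∧ O σ (c.F sd e ∪ E) x) k)) :
    ∃ c', CLe c' c ∧ Sil c' e sd O := by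
  unfold HD at h
  push Not at h
  obtain ⟨ψ, hψ, h⟩ := h
  obtain ⟨c', h1, rfl, h3⟩ := ofLe hD c ψ hψ sd e
  refine ⟨c', h1, k, fun s E hE hA x hx hO => h s ⟨E, hE, x, hx, hA, ?_⟩⟩
  rwa [h3] at hO

theorem main_step {D : DecT} (hD : DMono D) (c : Cond D) (e : ℕ)
    {OL OR : Node → Finset ℕ → ℕ → Prop} (hL : OutR OL) (hR : OutR OR) (i j : Bool) :
    ∃ c', CLe c' c ∧ (Par c' e ∨ (WinR c' e false OL i ∨ Sil c' e false OL) ∨
      (WinR c' e true OR j ∨ Sil c' e true OR)) := by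
  by_cases hT : Tot D c.φ e
  swap
  · unfold Tot at hT
    push Not at hT
    obtain ⟨ψ, hψ, u, v, huv, h⟩ := hT
    obtain ⟨c', h1, rfl, _⟩ := ofLe hD c ψ hψ true e
    exact ⟨c', h1, Or.inl ⟨u, v, huv, h⟩⟩
  by_cases HL : ∀ k, HD c.φ e
      (Has (fun σ E x => Adm D false e σ E ∧ OL σ (c.F false e ∪ E) x) k)
  swap
  · push Not at HL
    obtain ⟨k, hk⟩ := HL
    obtain ⟨c', h1, h2⟩ := sil_of hD c e false OL k hk
    exact ⟨c', h1, Or.inr (Or.inl (Or.inr h2))⟩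
  by_cases HR : HD c.φ e
      (Has (fun σ E x => Adm D true e σ E ∧ OR σ (c.F true e ∪ E) x) c.φ.base.length)
  swap
  · obtain ⟨c', h1, h2⟩ := sil_of hD c e true OR _ HR
    exact ⟨c', h1, Or.inr (Or.inr (Or.inr h2))⟩
  obtain ⟨s, Dd, hDk, hW⟩ := refute c.φ e (ev_of hD hL false e _) (ev_of hD hR true e _) _ HL HR
  set k := c.φ.base.length with hk
  let a' : List Bool := c.φ.base ++ (List.range (c.φ.nd s).length).map
    (fun t => if k + t ∈ Dd then i else j)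
  have ha' : ∀ x, k ≤ x → x < (c.φ.nd s).length →
      x < a'.length ∧ a'.getD x false = if x ∈ Dd then i else j := by
    intro x h1 h2
    have h3 : x < a'.length := by simp [a']; omega
    refine ⟨h3, ?_⟩
    simp only [a']
    rw [List.getD_append_right _ _ _ _ h1, List.getD_eq_getElem _ _ (by simp; omega)]
    simp only [List.getElem_map, List.getElem_range]
    rw [show k + (x - c.φ.base.length) = x by omega]
  obtain ⟨s2, h2, ha2⟩ := c.φ.rich s c.φ.base a' (List.prefix_refl _) (c.φ.base_a s)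
    (List.prefix_append _ _)
  have hle2 : FLe ((c.φ.at s2).cut e (c.φ.nd s).length) (c.φ.at s2) := Frame.cut_le _ _ _
  have hbig : ∀ t, ∀ z ∈ ((c.φ.at s2).cut e (c.φ.nd s).length).X e t, (c.φ.nd s).length < z := by
    intro t z hz
    rw [(c.φ.at s2).cut_X e _ t] at hz
    exact (Finset.mem_filter.1 hz).2
  obtain ⟨ψ, hψ, β, hβ⟩ := stabS ((c.φ.at s2).cut e (c.φ.nd s).length) hD e (c.φ.X e s)
    (fun ψ h => hT ψ ((h.trans hle2).trans (c.φ.at_le s2))) (by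
      intro t z hz u hu
      have := hbig t z hz
      have := c.φ.Xlt _ _ _ hu
      omega)
  have hψ1 : FLe ψ (c.φ.at s2) := hψ.trans hle2
  have hψ0 : FLe ψ c.φ := hψ1.trans (c.φ.at_le s2)
  have hs0 : c.φ.nd s <+: ψ.s0 := (c.φ.ext_nd h2).trans hψ1.2.1.1
  have hbig' : ∀ t, ∀ z ∈ ψ.X e t, (c.φ.nd s).length < z := by
    intro t z hz
    obtain ⟨t', _, h⟩ := hψ.2.2 t
    exact hbig t' z (h e hz)
  have hbase : a' <+: ψ.base := by
    rw [← ha2]
    exact hψ1.1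
  have hext : ∀ (sd : Bool) (E : Finset ℕ), E ⊆ c.φ.X e s → Adm D sd e (c.φ.nd s) E →
      (∀ u ∈ E, ∀ v ∈ E, u < v → β u = true → β v = true → D e (c.φ.nd s) u v true) →
      (sd = true → ∀ u ∈ E, β u = true) →
      ∀ (O : Node → Finset ℕ → ℕ → Prop) (x : ℕ) (b : Bool), O (c.φ.nd s) (c.F sd e ∪ E) x →
        x < a'.length → a'.getD x false = b → ∃ c', CLe c' c ∧ WinR c' e sd O b := by
    intro sd E hE hA h3 h4 O x b hO hx hb
    obtain ⟨c', h5, rfl, h6⟩ := extend hD c sd e s E hE hA ψ hψ0 (fun _ => hs0) (by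
      intro t
      obtain ⟨t', h5, h6⟩ := hψ1.2.2 t
      exact ⟨t'.1, h5, h6, hE.trans ((c.φ.Xmono _ _ _ _ h2).trans (c.φ.Xmono _ _ _ _ t'.2))⟩)
      β (by
        intro t z hz u hu
        refine ⟨?_, hβ t z hz u (hE hu)⟩
        have := hbig' t z hz
        have := c.φ.Xlt _ _ _ (hE hu)
        omega) h3 h4
    refine ⟨c', h5, c.φ.nd s, x, hs0, by rwa [h6], lt_of_lt_of_le hx hbase.length_le, ?_,
      fun t z hz => (hbig' t z hz).le⟩
    rw [getD_ext hbase hx, hb]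
  rcases hW {u | β u = true} with ⟨E, hE, y, hy, ⟨hA, hO⟩, hu⟩ | ⟨E, hE, x, hx, hxD, ⟨hA, hO⟩, hu⟩
  · obtain ⟨h3, h4⟩ := ha' y (hDk y hy) (hL.lt _ _ _ hO)
    obtain ⟨c', h5, h6⟩ := hext false E hE hA
      (fun u hu' v hv huv h5 h6 => absurd (hu u hu' v hv h5 h6) huv.ne) (by simp) OL y i hO h3
      (by rw [h4, if_pos hy])
    exact ⟨c', h5, Or.inr (Or.inl (Or.inl h6))⟩
  · obtain ⟨h3, h4⟩ := ha' x hx (hR.lt _ _ _ hO)
    obtain ⟨c', h5, h6⟩ := hext true E hE hA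
      (fun u hu' v hv huv _ _ => hA.2 rfl u hu' v hv huv) (fun _ => hu) OR x j hO h3
      (by rw [h4, if_neg hxD])
    exact ⟨c', h5, Or.inr (Or.inr (Or.inl h6))⟩

theorem len_step {D : DecT} (hD : DMono D) (c : Cond D) (n : ℕ) :
    ∃ c', CLe c' c ∧ n ≤ c'.φ.s0.length := by
  obtain ⟨r⟩ := c.φ.ne
  obtain ⟨t, _, z, hz, hn⟩ := c.φ.inf 0 r n
  obtain ⟨c', h1, h2, _⟩ := ofLe hD c (c.φ.at t) (c.φ.at_le t) true 0
  refine ⟨c', h1, ?_⟩
  rw [h2]
  have := c.φ.Xlt _ _ _ hz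
  show n ≤ (c.φ.nd t).length
  omega

end Pool.Agent.H132Z.RT
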