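import Mathlib

/-! Frames: systems of finite colourings with revocable promises and reservoirs. -/

set_option autoImplicit false

namespace Pool.Agent.H132Z.RT

open Classical

/-- A finite part of a colouring, as a list of columns. -/
abbrev Node := List (ℕ → Bool)

/-- The value of the node at `(x, y)`. -/
def val (σ : Node) (x y : ℕ) : Bool := σ.getD y (fun _ => false) x

/-- `σ'` extends `σ`, and the new columns obey the promises `b`. -/
def Ob (b : List Bool) (σ σ' : Node) : Prop :=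
  σ <+: σ' ∧ ∀ y, σ.length ≤ y → y < σ'.length → ∀ x, x < b.length → val σ' x y = b.getD x false

theorem val_ext {σ σ' : Node} (h : σ <+: σ') {x y : ℕ} (hy : y < σ.length) :
    val σ' x y = val σ x y := by
  obtain ⟨t, rfl⟩ := h
  unfold val
  rw [List.getD_append _ _ _ _ hy]

theorem getD_ext {b b' : List Bool} (h : b <+: b') {x : ℕ} (hx : x < b.length) :
    b'.getD x false = b.getD x false := by
  obtain ⟨t, rfl⟩ := h
  rw [List.getD_append _ _ _ _ hx]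

theorem Ob.rfl' (b : List Bool) (σ : Node) : Ob b σ σ :=
  ⟨List.prefix_refl _, fun y h1 h2 => absurd h2 (by omega)⟩

theorem Ob.trans {b : List Bool} {σ τ ρ : Node} (h1 : Ob b σ τ) (h2 : Ob b τ ρ) : Ob b σ ρ := by
  refine ⟨h1.1.trans h2.1, fun y hy1 hy2 x hx => ?_⟩
  by_cases h : y < τ.length
  · rw [val_ext h2.1 h]
    exact h1.2 y hy1 h x hx
  · exact h2.2 y (by omega) hy2 x hx

theorem Ob.mono {b b' : List Bool} {σ τ : Node} (h : b' <+: b) (h1 : Ob b σ τ) : Ob b' σ τ := by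
  refine ⟨h1.1, fun y hy1 hy2 x hx => ?_⟩
  rw [h1.2 y hy1 hy2 x (lt_of_lt_of_le hx h.length_le), getD_ext h hx]

/-- A frame. -/
structure Frame : Type 1 where
  St : Type
  nd : St → Node
  a : St → List Bool
  R : List Bool → St → St → Prop
  X : ℕ → St → Finset ℕ
  base : List Bool
  s0 : Node
  ne : Nonempty St
  base_a : ∀ s, base <+: a s
  s0_ob : ∀ s, Ob base s0 (nd s)
  refl : ∀ s b, b <+: a s → R b s s
  trans : ∀ b s t u, R b s t → R b t u → R b s u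
  mono : ∀ b b' s t, b' <+: b → R b s t → R b' s t
  ra : ∀ b s t, R b s t → b <+: a s ∧ b <+: a t ∧ Ob b (nd s) (nd t)
  rich : ∀ s b a', base <+: b → b <+: a s → b <+: a' → ∃ t, R b s t ∧ a t = a'
  Xmono : ∀ b s t e, R b s t → X e s ⊆ X e t
  Xlt : ∀ e s z, z ∈ X e s → z < (nd s).length
  inf : ∀ e s n, ∃ t, R (a s) s t ∧ ∃ z ∈ X e t, n < z

theorem Frame.ext_nd (φ : Frame) {b : List Bool} {s t : φ.St} (h : φ.R b s t) :
    φ.nd s <+: φ.nd t := (φ.ra b s t h).2.2.1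

/-- Extension of frames. -/
def FLe (φ' φ : Frame) : Prop :=
  φ.base <+: φ'.base ∧ Ob φ.base φ.s0 φ'.s0 ∧
    ∀ t : φ'.St, ∃ s : φ.St, φ.nd s = φ'.nd t ∧ ∀ e, φ'.X e t ⊆ φ.X e s

theorem FLe.rfl' (φ : Frame) : FLe φ φ :=
  ⟨List.prefix_refl _, Ob.rfl' _ _, fun t => ⟨t, rfl, fun _ => subset_rfl⟩⟩

theorem FLe.trans {φ1 φ2 φ3 : Frame} (h1 : FLe φ1 φ2) (h2 : FLe φ2 φ3) : FLe φ1 φ3 := by
  refine ⟨h2.1.trans h1.1, h2.2.1.trans (h1.2.1.mono h2.1), fun t => ?_⟩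
  obtain ⟨s, hs, hX⟩ := h1.2.2 t
  obtain ⟨r, hr, hX'⟩ := h2.2.2 s
  exact ⟨r, hr.trans hs, fun e => (hX e).trans (hX' e)⟩

/-- The initial frame. -/
def initFrame : Frame where
  St := Node × List Bool
  nd := Prod.fst
  a := Prod.snd
  R := fun b s t => b <+: s.2 ∧ b <+: t.2 ∧ Ob b s.1 t.1
  X := fun _ s => Finset.range s.1.length
  base := []
  s0 := []
  ne := ⟨([], [])⟩
  base_a := fun _ => List.nil_prefix
  s0_ob := fun _ => ⟨List.nil_prefix, fun _ _ _ x hx => absurd hx (by simp)⟩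
  refl := fun s b h => ⟨h, h, Ob.rfl' _ _⟩
  trans := fun _ _ _ _ h1 h2 => ⟨h1.1, h2.2.1, h1.2.2.trans h2.2.2⟩
  mono := fun _ _ _ _ h h1 => ⟨h.trans h1.1, h.trans h1.2.1, h1.2.2.mono h⟩
  ra := fun _ _ _ h => h
  rich := fun s b a' _ h1 h2 => ⟨(s.1, a'), ⟨h1, h2, Ob.rfl' _ _⟩, rfl⟩
  Xmono := fun _ _ _ _ h => Finset.range_subset_range.2 h.2.2.1.length_le
  Xlt := fun _ _ _ h => Finset.mem_range.1 h
  inf := fun _ s n => by
    refine ⟨(s.1 ++ List.replicate (n + 2) (fun x => s.2.getD x false), s.2),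
      ⟨List.prefix_refl _, List.prefix_refl _, List.prefix_append _ _, ?_⟩, n + 1, ?_, by omega⟩
    · intro y h1 h2 x _
      simp only [List.length_append, List.length_replicate] at h2
      unfold val
      rw [List.getD_append_right _ _ _ _ h1]
      rw [List.getD_eq_getElem _ _ (by simp; omega)]
      simp
    · simp
      omega

/-- The part of a frame that is reached from `r` under the promises `b0`. -/
def Frame.sub (φ : Frame) (b0 : List Bool) (r : φ.St) (h1 : φ.base <+: b0) (h2 : b0 <+: φ.a r) :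
    Frame where
  St := {s : φ.St // φ.R b0 r s}
  nd := fun s => φ.nd s.1
  a := fun s => φ.a s.1
  R := fun b s t => φ.R b s.1 t.1
  X := fun e s => φ.X e s.1
  base := b0
  s0 := φ.nd r
  ne := ⟨⟨r, φ.refl _ _ h2⟩⟩
  base_a := fun s => (φ.ra _ _ _ s.2).2.1
  s0_ob := fun s => (φ.ra _ _ _ s.2).2.2
  refl := fun s b h => φ.refl _ _ h
  trans := fun _ _ _ _ h1 h2 => φ.trans _ _ _ _ h1 h2
  mono := fun _ _ _ _ h h1 => φ.mono _ _ _ _ h h1
  ra := fun _ _ _ h => φ.ra _ _ _ h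
  rich := fun s b a' h0 h4 h3 => by
    obtain ⟨t, ht, hta⟩ := φ.rich s.1 b a' (h1.trans h0) h4 h3
    exact ⟨⟨t, φ.trans _ _ _ _ s.2 (φ.mono _ _ _ _ h0 ht)⟩, ht, hta⟩
  Xmono := fun _ _ _ _ h => φ.Xmono _ _ _ _ h
  Xlt := fun _ _ _ h => φ.Xlt _ _ _ h
  inf := fun e s n => by
    obtain ⟨t, ht, hz⟩ := φ.inf e s.1 n
    exact ⟨⟨t, φ.trans _ _ _ _ s.2 (φ.mono _ _ _ _ (φ.ra _ _ _ s.2).2.1 ht)⟩, ht, hz⟩

theorem Frame.sub_le (φ : Frame) (b0 : List Bool) (r : φ.St) (h1 : φ.base <+: b0)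
    (h2 : b0 <+: φ.a r) : FLe (φ.sub b0 r h1 h2) φ :=
  ⟨h1, φ.s0_ob r, fun t => ⟨t.1, rfl, fun _ => subset_rfl⟩⟩

/-- The subframe at a state, with all its promises. -/
def Frame.at (φ : Frame) (r : φ.St) : Frame :=
  φ.sub (φ.a r) r (φ.base_a r) (List.prefix_refl _)

theorem Frame.at_le (φ : Frame) (r : φ.St) : FLe (φ.at r) φ := φ.sub_le _ _ _ _

/-- Shrinking the reservoir number `e`. -/
noncomputable def Frame.shrink (φ : Frame) (e : ℕ) (Y : φ.St → Finset ℕ)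
    (hsub : ∀ s, Y s ⊆ φ.X e s) (hmono : ∀ b s t, φ.R b s t → Y s ⊆ Y t)
    (hinf : ∀ s n, ∃ t, φ.R (φ.a s) s t ∧ ∃ z ∈ Y t, n < z) : Frame where
  St := φ.St
  nd := φ.nd
  a := φ.a
  R := φ.R
  X := fun e' s => if e' = e then Y s else φ.X e' s
  base := φ.base
  s0 := φ.s0
  ne := φ.ne
  base_a := φ.base_a
  s0_ob := φ.s0_ob
  refl := φ.refl
  trans := φ.trans
  mono := φ.mono
  ra := φ.ra
  rich := φ.rich
  Xmono := fun b s t e' h => by
    split_ifs
    · exact hmono b s t h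
    · exact φ.Xmono b s t e' h
  Xlt := fun e' s z h => by
    split_ifs at h
    · exact φ.Xlt e s z (hsub s h)
    · exact φ.Xlt e' s z h
  inf := fun e' s n => by
    by_cases h : e' = e
    · simp only [h, if_true]
      exact hinf s n
    · simp only [h, if_false]
      exact φ.inf e' s n

theorem Frame.shrink_le (φ : Frame) (e : ℕ) (Y : φ.St → Finset ℕ)
    (hsub : ∀ s, Y s ⊆ φ.X e s) (hmono : ∀ b s t, φ.R b s t → Y s ⊆ Y t)
    (hinf : ∀ s n, ∃ t, φ.R (φ.a s) s t ∧ ∃ z ∈ Y t, n < z) :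
    FLe (φ.shrink e Y hsub hmono hinf) φ := by
  refine ⟨List.prefix_refl _, Ob.rfl' _ _, fun t => ⟨t, rfl, fun e' => ?_⟩⟩
  show (if e' = e then Y t else φ.X e' t) ⊆ φ.X e' t
  split_ifs with h
  · rw [h]; exact hsub t
  · exact subset_rfl

theorem Frame.shrink_X (φ : Frame) (e : ℕ) (Y : φ.St → Finset ℕ)
    (hsub : ∀ s, Y s ⊆ φ.X e s) (hmono : ∀ b s t, φ.R b s t → Y s ⊆ Y t)
    (hinf : ∀ s n, ∃ t, φ.R (φ.a s) s t ∧ ∃ z ∈ Y t, n < z) (s : φ.St) :
    (φ.shrink e Y hsub hmono hinf).X e s = Y s := by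
  show (if e = e then Y s else φ.X e s) = Y s
  simp

/-- Removing the elements `≤ n` from the reservoir number `e`. -/
noncomputable def Frame.cut (φ : Frame) (e n : ℕ) : Frame :=
  φ.shrink e (fun s => (φ.X e s).filter (fun z => n < z)) (fun _ => Finset.filter_subset _ _)
    (fun b s t h => Finset.filter_subset_filter _ (φ.Xmono b s t e h))
    (fun s m => by
      obtain ⟨t, ht, z, hz, hlt⟩ := φ.inf e s (max n m)
      exact ⟨t, ht, z, Finset.mem_filter.2 ⟨hz, lt_of_le_of_lt (le_max_left _ _) hlt⟩,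
        lt_of_le_of_lt (le_max_right _ _) hlt⟩)

theorem Frame.cut_le (φ : Frame) (e n : ℕ) : FLe (φ.cut e n) φ := φ.shrink_le _ _ _ _ _

theorem Frame.cut_X (φ : Frame) (e n : ℕ) (s : φ.St) :
    (φ.cut e n).X e s = (φ.X e s).filter (fun z => n < z) := φ.shrink_X _ _ _ _ _ s

end Pool.Agent.H132Z.RT
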