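import Pool.Agent.H132Z.RT.Frame

/-! The avoidance game on a frame, and the thread principle. -/

set_option autoImplicit false

namespace Pool.Agent.H132Z.RT

open Classical

/-- A move of the second player. -/
structure Move : Type where
  b : List Bool
  a' : List Bool
  e' : ℕ
  n : ℕ

/-- Well-founded strategies of the second player. -/
inductive Tr (S : Type) : Type
  | done : Tr S
  | move : Move → (S → Finset ℕ → Tr S) → Tr S

/-- Legal moves. -/
def Legal (φ : Frame) (s : φ.St) (m : Move) : Prop :=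
  φ.base <+: m.b ∧ m.b <+: φ.a s ∧ m.b <+: m.a'

/-- Answers of the first player. -/
def Resp (φ : Frame) (e : ℕ) (s : φ.St) (Y : Finset ℕ) (m : Move) (t : φ.St) (Z : Finset ℕ) :
    Prop :=
  φ.R m.b s t ∧ φ.a t = m.a' ∧ (∃ z ∈ φ.X m.e' t, m.n < z) ∧
    ∃ w ∈ φ.X e t, m.n < w ∧ Z = insert w Y

/-- The strategy wins from the position. -/
def Good (φ : Frame) (e : ℕ) (P : Node → Finset ℕ → Prop) : Tr φ.St → φ.St → Finset ℕ → Prop
  | .done, s, Y => P (φ.nd s) Y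
  | .move m k, s, Y => Legal φ s m ∧ ∀ t Z, Resp φ e s Y m t Z → Good φ e P (k t Z) t Z

/-- The position is lost for the first player. -/
def Lost (φ : Frame) (e : ℕ) (P : Node → Finset ℕ → Prop) (s : φ.St) (Y : Finset ℕ) : Prop :=
  ∃ T, Good φ e P T s Y

theorem not_lost_step {φ : Frame} {e : ℕ} {P : Node → Finset ℕ → Prop} {s : φ.St} {Y : Finset ℕ}
    (h : ¬ Lost φ e P s Y) (m : Move) (hm : Legal φ s m) :
    ∃ t Z, Resp φ e s Y m t Z ∧ ¬ Lost φ e P t Z := by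
  by_contra hc
  push Not at hc
  apply h
  have : ∀ t Z, ∃ T, Resp φ e s Y m t Z → Good φ e P T t Z := by
    intro t Z
    by_cases hr : Resp φ e s Y m t Z
    · obtain ⟨T, hT⟩ := hc t Z hr
      exact ⟨T, fun _ => hT⟩
    · exact ⟨.done, fun h => absurd h hr⟩
  choose k hk using this
  exact ⟨.move m k, hm, hk⟩

/-- The frame of the positions that are not lost. -/
noncomputable def Frame.game (φ : Frame) (e : ℕ) (P : Node → Finset ℕ → Prop) (r : φ.St)
    (hr : ¬ Lost φ e P r ∅) : Frame where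
  St := {p : φ.St × Finset ℕ // p.2 ⊆ φ.X e p.1 ∧ ¬ Lost φ e P p.1 p.2}
  nd := fun p => φ.nd p.1.1
  a := fun p => φ.a p.1.1
  R := fun b p q => φ.R b p.1.1 q.1.1 ∧ p.1.2 ⊆ q.1.2
  X := fun e' p => if e' = e then p.1.2 else φ.X e' p.1.1
  base := φ.base
  s0 := φ.s0
  ne := ⟨⟨(r, ∅), Finset.empty_subset _, hr⟩⟩
  base_a := fun _ => φ.base_a _
  s0_ob := fun _ => φ.s0_ob _
  refl := fun _ _ h => ⟨φ.refl _ _ h, subset_rfl⟩
  trans := fun _ _ _ _ h1 h2 => ⟨φ.trans _ _ _ _ h1.1 h2.1, h1.2.trans h2.2⟩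
  mono := fun _ _ _ _ h h1 => ⟨φ.mono _ _ _ _ h h1.1, h1.2⟩
  ra := fun _ _ _ h => φ.ra _ _ _ h.1
  rich := fun p b a' h0 h1 h2 => by
    obtain ⟨t, Z, ⟨h3, h4, _, w, hw, _, rfl⟩, h5⟩ := not_lost_step p.2.2 ⟨b, a', 0, 0⟩ ⟨h0, h1, h2⟩
    exact ⟨⟨(t, insert w p.1.2),
      Finset.insert_subset hw (p.2.1.trans (φ.Xmono _ _ _ _ h3)), h5⟩,
      ⟨h3, Finset.subset_insert _ _⟩, h4⟩
  Xmono := fun b p q e' h => by
    split_ifs
    · exact h.2
    · exact φ.Xmono b _ _ e' h.1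
  Xlt := fun e' p z h => by
    split_ifs at h
    · exact φ.Xlt e _ z (p.2.1 h)
    · exact φ.Xlt e' _ z h
  inf := fun e' p n => by
    obtain ⟨t, Z, ⟨h3, _, h6, w, hw, hn, rfl⟩, h5⟩ := not_lost_step p.2.2
      ⟨φ.a p.1.1, φ.a p.1.1, e', n⟩ ⟨φ.base_a _, List.prefix_refl _, List.prefix_refl _⟩
    refine ⟨⟨(t, insert w p.1.2),
      Finset.insert_subset hw (p.2.1.trans (φ.Xmono _ _ _ _ h3)), h5⟩,
      ⟨h3, Finset.subset_insert _ _⟩, ?_⟩
    by_cases h : e' = e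
    · simp only [h, if_true]
      exact ⟨w, Finset.mem_insert_self _ _, hn⟩
    · simp only [h, if_false]
      exact h6

theorem Frame.game_le (φ : Frame) (e : ℕ) (P : Node → Finset ℕ → Prop) (r : φ.St)
    (hr : ¬ Lost φ e P r ∅) : FLe (φ.game e P r hr) φ := by
  refine ⟨List.prefix_refl _, Ob.rfl' _ _, fun t => ⟨t.1.1, rfl, fun e' => ?_⟩⟩
  show (if e' = e then t.1.2 else φ.X e' t.1.1) ⊆ φ.X e' t.1.1
  split_ifs with h
  · rw [h]; exact t.2.1
  · exact subset_rfl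

/-- Monotone properties of a node and a finite set. -/
def Mono (P : Node → Finset ℕ → Prop) : Prop :=
  ∀ σ σ' Y Y', σ <+: σ' → Y ⊆ Y' → P σ Y → P σ' Y'

/-- Hereditarily dense properties. -/
def HD (φ : Frame) (e : ℕ) (P : Node → Finset ℕ → Prop) : Prop :=
  ∀ φ', FLe φ' φ → ∃ s, P (φ'.nd s) (φ'.X e s)

theorem HD.le {φ φ' : Frame} {e : ℕ} {P : Node → Finset ℕ → Prop} (h : HD φ e P)
    (hle : FLe φ' φ) : HD φ' e P := fun φ'' h' => h φ'' (h'.trans hle)

theorem HD.imp {φ : Frame} {e : ℕ} {P Q : Node → Finset ℕ → Prop} (h : HD φ e P)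
    (hPQ : ∀ σ Y, P σ Y → Q σ Y) : HD φ e Q := fun φ' h' =>
  let ⟨s, hs⟩ := h φ' h'
  ⟨s, hPQ _ _ hs⟩

theorem HD.lost {φ : Frame} {e : ℕ} {P : Node → Finset ℕ → Prop} (h : HD φ e P) (r : φ.St) :
    Lost φ e P r ∅ := by
  by_contra hr
  obtain ⟨p, hp⟩ := h _ (φ.game_le e P r hr)
  apply p.2.2
  refine ⟨.done, ?_⟩
  have : (φ.game e P r hr).X e p = p.1.2 := by
    show (if e = e then p.1.2 else φ.X e p.1.1) = p.1.2
    simp
  rw [this] at hp
  exact hp

theorem HD.dense {φ : Frame} {e : ℕ} {P : Node → Finset ℕ → Prop} (h : HD φ e P) (s : φ.St)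
    (n : ℕ) : ∃ t, φ.R (φ.a s) s t ∧ ∃ V, V ⊆ φ.X e t ∧ (∀ w ∈ V, n < w) ∧ P (φ.nd t) V := by
  obtain ⟨t, ht⟩ := h _ (((φ.at s).cut_le e n).trans (φ.at_le s))
  rw [(φ.at s).cut_X e n t] at ht
  exact ⟨t.1, t.2, _, Finset.filter_subset _ _, fun w hw => (Finset.mem_filter.1 hw).2, ht⟩

/-- Threads. -/
abbrev Thr (φ : Frame) := Tr φ.St × φ.St × Finset ℕ

/-- The child relation on threads. -/
def Child (φ : Frame) (τ' τ : Thr φ) : Prop :=
  ∃ m k t Z, τ.1 = .move m k ∧ τ'.1 = k t Z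

theorem child_wf (φ : Frame) : WellFounded (Child φ) := by
  have : ∀ (T : Tr φ.St) (p : φ.St × Finset ℕ), Acc (Child φ) (T, p) := by
    intro T
    induction T with
    | done =>
      intro p
      refine ⟨_, ?_⟩
      rintro τ' ⟨m, k, t, Z, h, _⟩
      cases h
    | move m k ih =>
      intro p
      refine ⟨_, ?_⟩
      rintro ⟨T', p'⟩ ⟨m', k', t, Z, h, h'⟩
      cases h
      simp only at h'
      subst h'
      exact ih t Z p'
  exact ⟨fun τ => this τ.1 τ.2⟩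

/-- The promises that a thread needs while it waits. -/
def req (φ : Frame) : Tr φ.St → List Bool
  | .done => φ.base
  | .move m _ => m.b

/-- The thread is waiting at the state `s`. -/
def Ok (φ : Frame) (e : ℕ) (P : Node → Finset ℕ → Prop) (τ : Thr φ) (s : φ.St) : Prop :=
  Good φ e P τ.1 τ.2.1 τ.2.2 ∧ τ.2.2 ⊆ φ.X e τ.2.1 ∧ φ.R (req φ τ.1) τ.2.1 s

theorem req_a {φ : Frame} {e : ℕ} {P : Node → Finset ℕ → Prop} {T : Tr φ.St} {s : φ.St}
    {Y : Finset ℕ} (h : Good φ e P T s Y) : req φ T <+: φ.a s := by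
  cases T with
  | done => exact φ.base_a s
  | move m k => exact h.1.2.1

theorem thread (φ : Frame) (e : ℕ) (P : Node → Finset ℕ → Prop) (hP : Mono P)
    (Q : Finset (Finset ℕ) → φ.St → Prop)
    (hbase : ∀ pool s, (∀ Y ∈ pool, Y ⊆ φ.X e s ∧ P (φ.nd s) Y) → Q pool s)
    (hstep : ∀ rest Y b n s, φ.base <+: b → b <+: φ.a s →
      (∀ s1 V, φ.R b s s1 → V ⊆ φ.X e s1 → (∀ w ∈ V, n < w) →
        ∃ s2, φ.R b s1 s2 ∧ Q (rest ∪ V.image (fun w => insert w Y)) s2) →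
      Q (insert Y rest) s)
    (s : φ.St) (h : Lost φ e P s ∅) : Q {∅} s := by
  have key : ∀ M : Multiset (Thr φ), ∀ s, (∀ τ ∈ M, Ok φ e P τ s) →
      Q (M.map (fun τ => τ.2.2)).toFinset s := by
    intro M
    induction M using (child_wf φ).cutExpand.induction with
    | _ M ih =>
    intro s hM
    by_cases hall : ∀ τ ∈ M, τ.1 = .done
    · apply hbase
      intro Y hY
      obtain ⟨τ, hτ, rfl⟩ := Multiset.mem_map.1 (Multiset.mem_toFinset.1 hY)
      obtain ⟨h1, h2, h3⟩ := hM τ hτ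
      refine ⟨h2.trans (φ.Xmono _ _ _ _ h3), ?_⟩
      rw [hall τ hτ] at h1
      exact hP _ _ _ _ (φ.ext_nd h3) subset_rfl h1
    · push Not at hall
      obtain ⟨τ, hτ, hmax⟩ := Finset.exists_max_image (M.toFinset.filter (fun τ => τ.1 ≠ .done))
        (fun τ => (req φ τ.1).length) (by
          obtain ⟨τ, h1, h2⟩ := hall
          exact ⟨τ, Finset.mem_filter.2 ⟨Multiset.mem_toFinset.2 h1, h2⟩⟩)
      obtain ⟨hτM, hτd⟩ := Finset.mem_filter.1 hτ
      rw [Multiset.mem_toFinset] at hτM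
      obtain ⟨T, su, Y⟩ := τ
      cases T with
      | done => exact absurd rfl hτd
      | move m k =>
      obtain ⟨⟨hl, hk⟩, hY, hR⟩ := hM _ hτM
      simp only [req] at hR hmax hY hl hk
      obtain ⟨M', rfl⟩ := Multiset.exists_cons_of_mem hτM
      rw [Multiset.map_cons, Multiset.toFinset_cons]
      have hba : m.b <+: φ.a s := (φ.ra _ _ _ hR).2.1
      apply hstep _ _ m.b m.n s hl.1 hba
      intro s1 V h1 hV hn
      obtain ⟨s1', h2, z, hz, hzn⟩ := φ.inf m.e' s1 m.n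
      have hb1 : m.b <+: φ.a s1 := (φ.ra _ _ _ h1).2.1
      have h2' : φ.R m.b s1 s1' := φ.mono _ _ _ _ hb1 h2
      obtain ⟨s2, h3, ha2⟩ := φ.rich s1' m.b m.a' hl.1 (φ.ra _ _ _ h2').2.1 hl.2.2
      have h12 : φ.R m.b s1 s2 := φ.trans _ _ _ _ h2' h3
      have hs2 : φ.R m.b s s2 := φ.trans _ _ _ _ h1 h12
      refine ⟨s2, h12, ?_⟩
      let C : Multiset (Thr φ) := V.val.map (fun w => (k s2 (insert w Y), s2, insert w Y))
      have hcut : Relation.CutExpand (Child φ) (M' + C) ((Tr.move m k, su, Y) ::ₘ M') := by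
        refine ⟨C, (Tr.move m k, su, Y), ?_, ?_⟩
        · intro τ' hτ'
          obtain ⟨w, _, rfl⟩ := Multiset.mem_map.1 hτ'
          exact ⟨m, k, s2, insert w Y, rfl, rfl⟩
        · rw [← Multiset.singleton_add]
          abel
      have hq := ih _ hcut s2 (by
        intro τ' hτ'
        rcases Multiset.mem_add.1 hτ' with h4 | h4
        · obtain ⟨h5, h6, h7⟩ := hM τ' (Multiset.mem_cons_of_mem h4)
          refine ⟨h5, h6, φ.trans _ _ _ _ h7 (φ.mono _ _ _ _ ?_ hs2)⟩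
          by_cases hd : τ'.1 = .done
          · rw [hd]; exact hl.1
          · refine List.prefix_of_prefix_length_le (φ.ra _ _ _ h7).2.1 hba ?_
            exact hmax τ' (Finset.mem_filter.2 ⟨Multiset.mem_toFinset.2
              (Multiset.mem_cons_of_mem h4), hd⟩)
        · obtain ⟨w, hw, rfl⟩ := Multiset.mem_map.1 h4
          have hw' : w ∈ φ.X e s2 := φ.Xmono _ _ _ _ h12 (hV hw)
          have hsu : φ.R m.b su s2 := φ.trans _ _ _ _ hR hs2
          have hg : Good φ e P (k s2 (insert w Y)) s2 (insert w Y) :=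
            hk _ _ ⟨hsu, ha2, ⟨z, φ.Xmono _ _ _ _ h3 hz, hzn⟩, w, hw', hn w hw, rfl⟩
          exact ⟨hg, Finset.insert_subset hw' (hY.trans (φ.Xmono _ _ _ _ hsu)),
            φ.refl _ _ (req_a hg)⟩)
      convert hq using 1
      ext Z
      simp [C]
  obtain ⟨T, hT⟩ := h
  have := key {(T, s, ∅)} s (by
    intro τ hτ
    rw [Multiset.mem_singleton] at hτ
    subst hτ
    exact ⟨hT, Finset.empty_subset _, φ.refl _ _ (req_a hT)⟩)
  simpa using this

end Pool.Agent.H132Z.RT
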