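import Pool.Agent.H132Z.RT.Cond

/-! The limit of the construction. -/

set_option autoImplicit false

namespace Pool.Agent.H132Z.RT

open Classical

/-- The first `n` columns of `f`. -/
def ini (f : ℕ → ℕ → Bool) (n : ℕ) : Node := (List.range n).map (fun y x => f x y)

theorem ini_length (f : ℕ → ℕ → Bool) (n : ℕ) : (ini f n).length = n := by simp [ini]

theorem val_ini (f : ℕ → ℕ → Bool) {n y : ℕ} (h : y < n) (x : ℕ) : val (ini f n) x y = f x y := by
  unfold val
  rw [List.getD_eq_getElem _ _ (by rw [ini_length]; exact h)]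
  simp [ini]

theorem node_pre {σ τ : Node} (h1 : σ.length ≤ τ.length)
    (h2 : ∀ y < σ.length, ∀ x, val σ x y = val τ x y) : σ <+: τ := by
  rw [List.prefix_iff_getElem]
  refine ⟨h1, fun y hy => ?_⟩
  funext x
  have := h2 y hy x
  unfold val at this
  rwa [List.getD_eq_getElem _ _ hy, List.getD_eq_getElem _ _ (lt_of_lt_of_le hy h1)] at this

theorem ini_pre (f : ℕ → ℕ → Bool) {n m : ℕ} (h : n ≤ m) : ini f n <+: ini f m := by
  refine node_pre (by simpa [ini_length] using h) (fun y hy x => ?_)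
  rw [ini_length] at hy
  rw [val_ini f hy, val_ini f (lt_of_lt_of_le hy h)]

theorem limit {D : DecT} (hD : DMono D) (O : ℕ → Node → Finset ℕ → ℕ → Prop)
    (hO : ∀ j, OutR (O j))
    (hI : ∀ n, ∃ j, ∀ σ S x, O j σ S x ↔ x < σ.length ∧ ∃ z ∈ S, n ≤ z ∧ z < σ.length) :
    ∃ f : ℕ → ℕ → Bool, ∀ e, (∀ u v, u < v → ∃ n b, D e (ini f n) u v b) →
      ∃ G : Set ℕ, G.Infinite ∧ (∀ x ∈ G, ∀ y ∈ G, ∀ z ∈ G, x < y → y < z → ∃ n,
          D e (ini f n) x y true ∨ D e (ini f n) x z false ∨ D e (ini f n) y z false) ∧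
        ∀ j i, (∃ (n x : ℕ) (S : Finset ℕ), (∀ z < n, z ∈ S ↔ z ∈ G) ∧ O j (ini f n) S x ∧
            ∃ y0, ∀ y ≥ y0, f x y = i) ∨
          (∃ k, ∀ (n x : ℕ) (S : Finset ℕ), (∀ z < n, z ∈ S ↔ z ∈ G) → k ≤ x →
            ¬ O j (ini f n) S x) := by
  obtain ⟨task, htask⟩ := exists_surjective_nat (ℕ × (ℕ × Bool) × (ℕ × Bool))
  let Sat : Cond D → ℕ → Bool → ℕ × Bool → Prop := fun c e sd p =>
    WinR c e sd (O p.1) p.2 ∨ Sil c e sd (O p.1)
  have hstep : ∀ (n : ℕ) (c : Cond D), ∃ c', CLe c' c ∧ n + 1 ≤ c'.φ.s0.length ∧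
      (Par c' (task n).1 ∨ Sat c' (task n).1 false (task n).2.1 ∨
        Sat c' (task n).1 true (task n).2.2) := by
    intro n c
    obtain ⟨c1, h1, h2⟩ := len_step hD c (n + 1)
    obtain ⟨c2, h3, h4⟩ := main_step hD c1 (task n).1 (hO (task n).2.1.1) (hO (task n).2.2.1)
      (task n).2.1.2 (task n).2.2.2
    exact ⟨c2, h3.trans h1, h2.trans h3.2.1.1.length_le, h4⟩
  choose nxt hnxt using hstep
  let c : ℕ → Cond D := fun n => Nat.rec (initCond D) nxt n
  have hc : ∀ n, c (n + 1) = nxt n (c n) := fun n => rfl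
  have hle : ∀ n m, n ≤ m → CLe (c m) (c n) := by
    intro n m h
    induction m, h using Nat.le_induction with
    | base => exact CLe.rfl' _
    | succ m _ ih => rw [hc]; exact (hnxt m (c m)).1.trans ih
  have hlen : ∀ n, n ≤ (c n).φ.s0.length := by
    intro n
    cases n with
    | zero => exact Nat.zero_le _
    | succ n => rw [hc]; exact (hnxt n (c n)).2.1
  have hpre : ∀ n m, n ≤ m → (c n).φ.s0 <+: (c m).φ.s0 := fun n m h => (hle n m h).2.1.1
  let f : ℕ → ℕ → Bool := fun x y => val (c (y + 1)).φ.s0 x y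
  have hval : ∀ m y, y < (c m).φ.s0.length → ∀ x, val (c m).φ.s0 x y = f x y := by
    intro m y hy x
    show _ = val (c (y + 1)).φ.s0 x y
    rw [← val_ext (hpre m (max m (y + 1)) (le_max_left _ _)) hy,
      ← val_ext (hpre (y + 1) (max m (y + 1)) (le_max_right _ _)) (hlen (y + 1))]
  have hini : ∀ n m, n ≤ m → ini f n <+: (c m).φ.s0 := by
    intro n m h
    refine node_pre (by rw [ini_length]; exact h.trans (hlen m)) (fun y hy x => ?_)
    rw [ini_length] at hy
    rw [val_ini f hy, hval m y (lt_of_lt_of_le hy (h.trans (hlen m)))]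
  have hini2 : ∀ m (σ : Node), σ <+: (c m).φ.s0 → σ = ini f σ.length := by
    intro m σ h
    refine List.IsPrefix.eq_of_length (node_pre (by rw [ini_length]) (fun y hy x => ?_))
      (by rw [ini_length])
    rw [val_ini f hy, ← hval m y (lt_of_lt_of_le hy h.length_le), val_ext h hy]
  have hst : ∀ n m, n ≤ m → ∃ s : (c n).φ.St, (c m).φ.s0 <+: (c n).φ.nd s ∧
      ∀ e sd, (c m).F sd e ⊆ (c n).F sd e ∪ (c n).φ.X e s := by
    intro n m h
    obtain ⟨t⟩ := (c m).φ.ne
    obtain ⟨s, h1, h2⟩ := (hle n m h).2.2.2 t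
    exact ⟨s, h1 ▸ ((c m).φ.s0_ob t).1, fun e sd => (h2 e).2 sd⟩
  refine ⟨f, fun e he => ?_⟩
  have hside : ∃ sd, ∀ p, ∃ n, Sat (c n) e sd p := by
    by_contra hcon
    push Not at hcon
    obtain ⟨p, hp⟩ := hcon false
    obtain ⟨q, hq⟩ := hcon true
    obtain ⟨n, hn⟩ := htask (e, p, q)
    have h := (hnxt n (c n)).2.2
    rw [← hc, hn] at h
    rcases h with ⟨u, v, huv, h⟩ | h | h
    · obtain ⟨m, b, hb⟩ := he u v huv
      obtain ⟨s, h1, _⟩ := hst (n + 1) (max (n + 1) m) (le_max_left _ _)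
      exact h s b (hD _ _ _ _ _ _ ((hini m _ (le_max_right _ _)).trans h1) hb)
    · exact hp (n + 1) h
    · exact hq (n + 1) h
  obtain ⟨sd, hsd⟩ := hside
  have hF : ∀ n m, n ≤ m → (c n).F sd e ⊆ (c m).F sd e := fun n m h => (hle n m h).2.2.1 sd e
  refine ⟨{z | ∃ n, z ∈ (c n).F sd e}, ?_, ?_, ?_⟩
  · refine Set.infinite_of_forall_exists_gt (fun N => ?_)
    obtain ⟨j, hj⟩ := hI (N + 1)
    obtain ⟨n, hn⟩ := hsd (j, true)
    rcases hn with ⟨σ, x, _, h2, _⟩ | ⟨k, hk⟩
    · obtain ⟨_, z, h3, h4, _⟩ := (hj _ _ _).1 h2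
      exact ⟨z, ⟨n, h3⟩, h4⟩
    · exfalso
      obtain ⟨r⟩ := (c n).φ.ne
      obtain ⟨t, _, z, hz, hlt⟩ := (c n).φ.inf e r (max N k)
      have h1 := (c n).φ.Xlt _ _ _ hz
      refine hk t {z} (Finset.singleton_subset_iff.2 hz) ⟨?_, ?_⟩ z
        (le_of_lt (lt_of_le_of_lt (le_max_right _ _) hlt)) ((hj _ _ _).2 ⟨h1, z, by simp,
          lt_of_le_of_lt (le_max_left _ _) hlt, h1⟩)
      · intro a ha b hb _ _ hab _
        rw [Finset.mem_singleton] at ha hb
        omega
      · intro _ a ha b hb hab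
        rw [Finset.mem_singleton] at ha hb
        omega
  · rintro x ⟨n1, hx⟩ y ⟨n2, hy⟩ z ⟨n3, hz⟩ hxy hyz
    have h := ((c (max n1 (max n2 n3))).adm sd e).1 x (hF _ _ (le_max_left _ _) hx)
      y (hF _ _ (le_max_of_le_right (le_max_left _ _)) hy)
      z (hF _ _ (le_max_of_le_right (le_max_right _ _)) hz) hxy hyz
    rw [hini2 _ _ (List.prefix_refl _)] at h
    exact ⟨_, h⟩
  · intro j i
    obtain ⟨n, hn⟩ := hsd (j, i)
    rcases hn with ⟨σ, x, h1, h2, h3, h4, h5⟩ | ⟨k, hk⟩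
    · left
      refine ⟨σ.length, x, (c n).F sd e, fun z hz => ⟨fun h => ⟨n, h⟩, ?_⟩, ?_,
        (c n).φ.s0.length, fun y hy => ?_⟩
      · rintro ⟨m, hm⟩
        obtain ⟨s, _, h6⟩ := hst n (max n m) (le_max_left _ _)
        refine (Finset.mem_union.1 (h6 e sd (hF _ _ (le_max_right _ _) hm))).resolve_right
          (fun h7 => ?_)
        have := h5 s z h7
        omega
      · rw [← hini2 n σ h1]
        exact h2
      · have h6 := hle n (max n (y + 1)) (le_max_left _ _)
        have h7 : y < (c (max n (y + 1))).φ.s0.length :=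
          lt_of_lt_of_le (lt_of_lt_of_le (Nat.lt_succ_self y) (le_max_right _ _)) (hlen _)
        rw [← hval _ y h7, h6.2.1.2 y hy h7 x h3]
        exact h4
    · right
      refine ⟨k, fun N x S hS hx hOx => ?_⟩
      have h1 : ∀ M, ∃ m, ∀ z < M, (∃ n, z ∈ (c n).F sd e) → z ∈ (c m).F sd e := by
        intro M
        induction M with
        | zero => exact ⟨0, by simp⟩
        | succ M ih =>
          obtain ⟨m, hm⟩ := ih
          by_cases h : ∃ n, M ∈ (c n).F sd e
          · obtain ⟨m', hm'⟩ := h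
            refine ⟨max m m', fun z hz hz' => ?_⟩
            rcases Nat.lt_succ_iff_lt_or_eq.1 hz with h | rfl
            · exact hF _ _ (le_max_left _ _) (hm z h hz')
            · exact hF _ _ (le_max_right _ _) hm'
          · refine ⟨m, fun z hz hz' => ?_⟩
            rcases Nat.lt_succ_iff_lt_or_eq.1 hz with h' | rfl
            · exact hm z h' hz'
            · exact absurd hz' h
      obtain ⟨m, hm⟩ := h1 N
      obtain ⟨s, h2, h3⟩ := hst n (max n (max m N)) (le_max_left _ _)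
      set M := max n (max m N) with hM
      refine hk s ((c M).F sd e \ (c n).F sd e) ?_ ?_ x hx ?_
      · intro z hz
        obtain ⟨h4, h5⟩ := Finset.mem_sdiff.1 hz
        exact (Finset.mem_union.1 (h3 e sd h4)).resolve_left h5
      · exact ((c M).adm sd e).mono hD h2 Finset.sdiff_subset
      · rw [Finset.union_sdiff_of_subset (hF n M (le_max_left _ _))]
        refine (hO j).loc _ _ _ _ _
          ((hini N M (le_max_of_le_right (le_max_right _ _))).trans h2) (fun z hz => ?_) hOx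
        rw [ini_length] at hz
        rw [hS z hz]
        exact ⟨fun h => hF m M (le_max_of_le_right (le_max_left _ _)) (hm z hz h),
          fun h => ⟨M, h⟩⟩

end Pool.Agent.H132Z.RT
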