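import Pool.Agent.H132Z.RT.Limit
import Pool.Agent.H132Z.RT.Oracle
import Pool.Agent.H132Z.RT.Defs

/-! Ramsey's theorem for pairs is not computably reducible to the avoidance of `120`. -/

set_option autoImplicit false

namespace Pool.Agent.H132Z.RT

open Classical

/-- A bit as a number. -/
def bit (b : Bool) : ℕ := if b then 1 else 0

/-- A node as an oracle. -/
def nodeO (σ : Node) : ℕ →. ℕ := fun n =>
  if n.unpair.1 < n.unpair.2 then
    (if n.unpair.2 < σ.length then Part.some (bit (val σ n.unpair.1 n.unpair.2)) else Part.none)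
  else Part.some 0

/-- A finite part of a set as an oracle. -/
noncomputable def finO (S : Set ℕ) (m : ℕ) : ℕ →. ℕ := fun n =>
  if n < m then Part.some (if n ∈ S then 1 else 0) else Part.none

theorem nodeO_ext {σ τ : Node} (h : σ <+: τ) : Ext (nodeO σ) (nodeO τ) := by
  intro q v hv
  unfold nodeO at hv ⊢
  split_ifs at hv with h1 h2
  · rw [if_pos h1, if_pos (lt_of_lt_of_le h2 h.length_le), val_ext h h2]
    exact hv
  · exact absurd hv (Part.notMem_none _)
  · rw [if_neg h1]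
    exact hv

theorem finO_ext {S T : Set ℕ} {m n : ℕ} (h : m ≤ n) (h' : ∀ z < m, z ∈ S ↔ z ∈ T) :
    Ext (finO S m) (finO T n) := by
  intro q v hv
  unfold finO at hv ⊢
  by_cases h1 : q < m
  · rw [if_pos h1] at hv
    rw [if_pos (lt_of_lt_of_le h1 h)]
    simpa [h' q h1] using hv
  · rw [if_neg h1] at hv
    exact absurd hv (Part.notMem_none _)

theorem join_ext {a b a' b' : ℕ →. ℕ} (h1 : Ext a a') (h2 : Ext b b') :
    Ext (join a b) (join a' b') := by
  intro q v hv
  unfold join at hv ⊢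
  split_ifs at hv ⊢
  · exact h1 _ _ hv
  · exact h2 _ _ hv

/-- The colouring given by a function of two variables. -/
def toCol (f : ℕ → ℕ → Bool) : Coloring := fun q => if f q.1.1 q.1.2 then 1 else 0

theorem toCol_val (f : ℕ → ℕ → Bool) (q : {q : ℕ × ℕ // q.1 < q.2}) :
    (toCol f q : ℕ) = bit (f q.1.1 q.1.2) := by
  unfold toCol bit
  split_ifs <;> rfl

theorem ini_ext (f : ℕ → ℕ → Bool) (n : ℕ) : Ext (nodeO (ini f n)) (colOracle (toCol f)) := by
  intro q v hv
  unfold nodeO at hv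
  unfold colOracle
  rw [ini_length] at hv
  split_ifs at hv with h1 h2
  · rw [dif_pos h1, toCol_val, ← val_ini f h2]
    exact hv
  · exact absurd hv (Part.notMem_none _)
  · rw [dif_neg h1]
    exact hv

theorem ini_lim (f : ℕ → ℕ → Bool) (q v : ℕ) (hv : v ∈ colOracle (toCol f) q) :
    ∃ n, v ∈ nodeO (ini f n) q := by
  refine ⟨q.unpair.2 + 1, ?_⟩
  unfold nodeO
  unfold colOracle at hv
  rw [ini_length, if_pos (Nat.lt_succ_self _)]
  split_ifs at hv ⊢ with h1
  · rw [val_ini f (Nat.lt_succ_self _), ← toCol_val f ⟨q.unpair, h1⟩]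
    exact hv
  · exact hv

theorem finO_ext' (G : Set ℕ) (n : ℕ) : Ext (finO G n) (setOracle G) := by
  intro q v hv
  unfold finO at hv
  unfold setOracle
  by_cases h1 : q < n
  · rwa [if_pos h1] at hv
  · rw [if_neg h1] at hv
    exact absurd hv (Part.notMem_none _)

theorem fin2 (c : Fin 2) : ∃ b : Bool, (c : ℕ) = bit b := by
  fin_cases c
  · exact ⟨false, rfl⟩
  · exact ⟨true, rfl⟩

theorem main : ¬ CompRed SolRT (SolRTp (permPattern [1, 2, 0])) := by
  intro hred
  obtain ⟨cd, hcd⟩ := exists_surjective_nat OC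
  obtain ⟨od, hod⟩ := exists_surjective_nat (OC ⊕ ℕ)
  let D : DecT := fun e σ u v b => bit b ∈ (cd e).ev (nodeO σ) (Nat.pair u v)
  have hD : DMono D := fun e σ σ' u v b h h' => (cd e).mono (nodeO_ext h) _ _ h'
  let O' : OC ⊕ ℕ → Node → Finset ℕ → ℕ → Prop := fun t σ S x =>
    x < σ.length ∧ Sum.elim (fun c : OC => 1 ∈ c.ev (join (nodeO σ) (finO S σ.length)) x)
      (fun n => ∃ z ∈ S, n ≤ z ∧ z < σ.length) t
  have hO' : ∀ t, OutR (O' t) := by
    intro t
    refine ⟨fun σ σ' S S' x h1 h2 h3 => ⟨lt_of_lt_of_le h3.1 h1.length_le, ?_⟩,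
      fun _ _ _ h => h.1⟩
    cases t with
    | inl c => exact c.mono (join_ext (nodeO_ext h1) (finO_ext h1.length_le h2)) _ _ h3.2
    | inr n =>
      obtain ⟨z, h4, h5, h6⟩ := h3.2
      exact ⟨z, (h2 z h6).1 h4, h5, lt_of_lt_of_le h6 h1.length_le⟩
  obtain ⟨f, hf⟩ := limit hD (fun j => O' (od j)) (fun j => hO' _) (fun n => by
    obtain ⟨j, hj⟩ := hod (Sum.inr n)
    refine ⟨j, fun σ S x => ?_⟩
    simp only [hj]
    exact Iff.rfl)
  obtain ⟨g, hg, hsol⟩ := hred (toCol f)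
  obtain ⟨c, hc⟩ := exists_code (RecursiveIn.iff_nat.1 hg)
  obtain ⟨e, rfl⟩ := hcd c
  have hgv : ∀ u v (h : u < v), (g ⟨(u, v), h⟩ : ℕ) ∈ colOracle g (Nat.pair u v) := by
    intro u v h
    unfold colOracle
    simp [h]
  have hdec : ∀ u v (h : u < v) n b, D e (ini f n) u v b → (g ⟨(u, v), h⟩ : ℕ) = bit b := by
    intro u v h n b hb
    have h1 := (cd e).mono (ini_ext f n) _ _ hb
    rw [hc] at h1
    exact Part.mem_unique (hgv u v h) h1
  obtain ⟨G, hinf, hG1, hG2⟩ := hf e (by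
    intro u v h
    obtain ⟨b, hb⟩ := fin2 (g ⟨(u, v), h⟩)
    have h1 := hgv u v h
    rw [← hc, hb] at h1
    obtain ⟨n, hn⟩ := (cd e).cont (fun n => nodeO (ini f n))
      (fun n m h => nodeO_ext (ini_pre f h)) (ini_lim f) _ _ h1
    exact ⟨n, b, hn⟩)
  have hS : ∀ n : ℕ, ∃ S : Finset ℕ, ∀ z < n, z ∈ S ↔ z ∈ G := fun n =>
    ⟨(Finset.range n).filter (fun z => z ∈ G), fun z hz => by simp [hz]⟩
  obtain ⟨H, ⟨hH, col, hcol⟩, hHT⟩ := hsol G ⟨hinf, by
    rintro ⟨x, hx, h1, h2⟩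
    let i0 : Fin 3 := 0
    let i1 : Fin 3 := 1
    let i2 : Fin 3 := 2
    have h01 : i0 < i1 := by decide
    have h02 : i0 < i2 := by decide
    have h12 : i1 < i2 := by decide
    have e1 : g ⟨(x i0, x i1), hx h01⟩ = 0 := h2 i0 i1 h01
    have e2 : g ⟨(x i0, x i2), hx h02⟩ = 1 := h2 i0 i2 h02
    have e3 : g ⟨(x i1, x i2), hx h12⟩ = 1 := h2 i1 i2 h12
    obtain ⟨n, h | h | h⟩ := hG1 _ (h1 i0) _ (h1 i1) _ (h1 i2) (hx h01) (hx h12)
    · have := hdec _ _ (hx h01) n _ h
      rw [e1] at this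
      exact absurd this (by decide)
    · have := hdec _ _ (hx h02) n _ h
      rw [e2] at this
      exact absurd this (by decide)
    · have := hdec _ _ (hx h12) n _ h
      rw [e3] at this
      exact absurd this (by decide)⟩
  obtain ⟨d, hd⟩ := exists_code (RecursiveIn.iff_nat.1 hHT)
  obtain ⟨j, hj⟩ := hod (Sum.inl d)
  obtain ⟨b, hb⟩ := fin2 col
  rcases hG2 j (!b) with ⟨n, x, S, h1, h2, y0, h3⟩ | ⟨k, hk⟩
  · rw [hj] at h2
    have h4 : 1 ∈ d.ev (join (colOracle (toCol f)) (setOracle G)) x := by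
      refine d.mono (join_ext (ini_ext f n) ?_) _ _ h2.2
      rw [ini_length]
      exact fun q v hv => finO_ext' G n q v (finO_ext le_rfl h1 q v hv)
    rw [hd] at h4
    have hx : x ∈ H := by
      by_contra hx
      simp [setOracle, hx] at h4
    obtain ⟨y, hy, hlt⟩ := hH.exists_gt (max x y0)
    have hxy : x < y := lt_of_le_of_lt (le_max_left _ _) hlt
    have h5 := toCol_val f ⟨(x, y), hxy⟩
    rw [hcol x hx y hy hxy, hb] at h5
    simp only at h5
    rw [h3 y (le_of_lt (lt_of_le_of_lt (le_max_right _ _) hlt))] at h5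
    cases b <;> simp [bit] at h5
  · obtain ⟨x, hx, hlt⟩ := hH.exists_gt k
    have h4 : 1 ∈ d.ev (join (colOracle (toCol f)) (setOracle G)) x := by
      rw [hd]
      simp [setOracle, hx]
    obtain ⟨n, hn⟩ := d.cont (fun n => join (nodeO (ini f n)) (finO G n))
      (fun n m h => join_ext (nodeO_ext (ini_pre f h)) (finO_ext h (fun _ _ => Iff.rfl))) (by
        intro q v hv
        unfold join at hv ⊢
        split_ifs at hv ⊢
        · exact ini_lim f _ _ hv
        · refine ⟨q / 2 + 1, ?_⟩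
          unfold finO
          rw [if_pos (Nat.lt_succ_self _)]
          exact hv) _ _ h4
    obtain ⟨S, hS'⟩ := hS (max n (x + 1))
    refine hk (max n (x + 1)) x S hS' hlt.le ?_
    rw [hj]
    refine ⟨by rw [ini_length]; omega, ?_⟩
    refine d.mono (join_ext (nodeO_ext (ini_pre f (le_max_left _ _))) ?_) _ _ hn
    rw [ini_length]
    exact finO_ext (le_max_left _ _)
      (fun z hz => (hS' z (lt_of_lt_of_le hz (le_max_left _ _))).symm)

end Pool.Agent.H132Z.RT
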