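import Pool.Agent.H132Z.RT.Big

/-! The key combinatorial lemma: if neither side can be silenced, some finite set of outputs wins
against every partition. -/

set_option autoImplicit false

namespace Pool.Agent.H132Z.RT

open Classical

/-- The set `D` wins against the partition given by `C`. -/
def Wins (EL ER : Node → Finset ℕ → ℕ → Prop) (k : ℕ) (σ : Node) (V D : Finset ℕ) (C : Set ℕ) :
    Prop :=
  (∃ Y ⊆ V, ∃ y ∈ D, EL σ Y y ∧ ∀ u ∈ Y, ∀ v ∈ Y, u ∈ C → v ∈ C → u = v) ∨
  (∃ Y ⊆ V, ∃ x, k ≤ x ∧ x ∉ D ∧ ER σ Y x ∧ ∀ u ∈ Y, u ∈ C)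

theorem refute (φ : Frame) (e : ℕ) {EL ER : Node → Finset ℕ → ℕ → Prop} (hL : Ev EL)
    (hR : Ev ER) (k : ℕ) (HL : ∀ k, HD φ e (Has EL k)) (HR : HD φ e (Has ER k)) :
    ∃ s : φ.St, ∃ D : Finset ℕ, (∀ y ∈ D, k ≤ y) ∧ ∀ C, Wins EL ER k (φ.nd s) (φ.X e s) D C := by
  obtain ⟨r⟩ := φ.ne
  have key := thread φ e (Has ER k) (Has.mono hR k) (fun pool s => ∀ m : ℕ, ∃ s',
      φ.R φ.base s s' ∧ ∃ (I : Finset ℕ → Finset ℕ) (c : Finset ℕ → ℕ), (∀ Y ∈ pool, I Y ⊆ Y) ∧
        ∀ D : Finset ℕ, D.card ≤ m → (∀ y ∈ D, k ≤ y) → ∀ U ⊆ pool, (∀ Y ∈ U, c Y ∉ D) →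
          ∃ D' : Finset ℕ, D ⊆ D' ∧ (∀ y ∈ D', k ≤ y) ∧
            ∀ C, ¬ Wins EL ER k (φ.nd s') (φ.X e s') D' C → ∀ Y ∈ U, ¬ ∀ u ∈ I Y, u ∈ C)
      ?_ ?_ r (HR.lost r)
  · obtain ⟨s', _, I, c, hI, H⟩ := key 0
    obtain ⟨D', _, hD', H'⟩ := H ∅ (by simp) (by simp) {∅} subset_rfl (by simp)
    refine ⟨s', D', hD', fun C => ?_⟩
    by_contra hc
    refine H' C hc ∅ (Finset.mem_singleton_self _) (fun u hu => ?_)
    exact absurd (hI ∅ (Finset.mem_singleton_self _) hu) (by simp)
  · intro pool s hp m
    have : ∀ Y : Finset ℕ, ∃ (Z : Finset ℕ) (x : ℕ), Y ∈ pool →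
        Z ⊆ Y ∧ k ≤ x ∧ ER (φ.nd s) Z x := by
      intro Y
      by_cases hY : Y ∈ pool
      · obtain ⟨Z, hZ, x, hx, h⟩ := (hp Y hY).2
        exact ⟨Z, x, fun _ => ⟨hZ, hx, h⟩⟩
      · exact ⟨∅, 0, fun h => absurd h hY⟩
    choose I c hIc using this
    refine ⟨s, φ.refl _ _ (φ.base_a s), I, c, fun Y hY => (hIc Y hY).1,
      fun D _ hD U hU hc => ⟨D, subset_rfl, hD, fun C hC Y hY hall => hC (Or.inr ?_)⟩⟩
    obtain ⟨h1, h2, h3⟩ := hIc Y (hU hY)
    exact ⟨I Y, h1.trans (hp Y (hU hY)).1, c Y, h2, hc Y hY, h3, hall⟩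
  · intro rest Y b n s hb1 hb2 hk m
    obtain ⟨s1, h1, V, hV, hn, hBV⟩ :=
      (HD.big hL HL k (m + (insert Y rest).card) Y.powerset).dense s n
    have h1' : φ.R b s s1 := φ.mono _ _ _ _ hb2 h1
    obtain ⟨s2, h2, hQ⟩ := hk s1 V h1' hV hn
    obtain ⟨s', h3, I, c, hI, H⟩ := hQ (m + 1)
    have h13 : φ.R φ.base s1 s' := φ.trans _ _ _ _ (φ.mono _ _ _ _ hb1 h2) h3
    refine ⟨s', φ.trans _ _ _ _ (φ.mono _ _ _ _ hb1 h1') h13, ?_⟩
    by_cases hY : Y ∈ rest ∪ V.image (fun w => insert w Y)
    · have hsub : insert Y rest ⊆ rest ∪ V.image (fun w => insert w Y) :=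
        Finset.insert_subset hY Finset.subset_union_left
      exact ⟨I, c, fun Z hZ => hI Z (hsub hZ), fun D hD hDk U hU hc =>
        H D (by omega) hDk U (hU.trans hsub) hc⟩
    · have hch : ∀ w ∈ V, insert w Y ∈ rest ∪ V.image (fun w => insert w Y) :=
        fun w hw => Finset.mem_union_right _ (Finset.mem_image_of_mem _ hw)
      obtain ⟨t, ht, c0, HB⟩ := hBV (fun w => (I (insert w Y)).erase w) (fun w => c (insert w Y))
        (by
          intro w hw
          refine Finset.mem_powerset.2 (fun u hu => ?_)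
          obtain ⟨hu1, hu2⟩ := Finset.mem_erase.1 hu
          exact (Finset.mem_insert.1 (hI _ (hch w hw) hu2)).resolve_left hu1)
      have hne : ∀ Z ∈ rest, Z ≠ Y := fun Z hZ h => hY (h ▸ Finset.mem_union_left _ hZ)
      refine ⟨Function.update I Y t, Function.update c Y c0, ?_, ?_⟩
      · intro Z hZ
        rcases Finset.mem_insert.1 hZ with rfl | hZ
        · rw [Function.update_self]
          exact Finset.mem_powerset.1 ht
        · rw [Function.update_of_ne (hne Z hZ)]
          exact hI Z (Finset.mem_union_left _ hZ)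
      · intro D hD hDk U hU hc
        have hUe : U.erase Y ⊆ rest := by
          intro Z hZ
          obtain ⟨h4, h5⟩ := Finset.mem_erase.1 hZ
          exact (Finset.mem_insert.1 (hU h5)).resolve_left h4
        have hcU : ∀ Z ∈ U.erase Y, c Z ∉ D := by
          intro Z hZ
          have := hc Z (Finset.mem_of_mem_erase hZ)
          rwa [Function.update_of_ne (Finset.ne_of_mem_erase hZ)] at this
        by_cases hYU : Y ∈ U
        · have hc0 : c0 ∉ D := by
            have := hc Y hYU
            rwa [Function.update_self] at this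
          obtain ⟨E, hE, hEt, y, hy, hyD, hEy, huniq⟩ := HB D ((U.erase Y).image c) (by omega)
            (by
              have h4 : ((U.erase Y).image c).card ≤ (U.erase Y).card := Finset.card_image_le
              have h5 : (U.erase Y).card ≤ U.card := Finset.card_erase_le
              have h6 := Finset.card_le_card hU
              omega) hc0
          obtain ⟨D', hD', hD'k, H'⟩ := H (insert y D)
            (by have := Finset.card_insert_le y D; omega)
            (by
              intro z hz
              rcases Finset.mem_insert.1 hz with rfl | hz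
              · exact hy
              · exact hDk z hz)
            (U.erase Y ∪ (E.filter (fun w => c (insert w Y) ∉ insert y D)).image
              (fun w => insert w Y))
            (Finset.union_subset_union hUe (Finset.image_subset_image
              ((Finset.filter_subset _ _).trans hE)))
            (by
              intro Z hZ
              rcases Finset.mem_union.1 hZ with hZ | hZ
              · intro h4
                rcases Finset.mem_insert.1 h4 with h4 | h4
                · exact hyD (h4 ▸ Finset.mem_image_of_mem _ hZ)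
                · exact hcU Z hZ h4
              · obtain ⟨w, hw, rfl⟩ := Finset.mem_image.1 hZ
                exact (Finset.mem_filter.1 hw).2)
          refine ⟨D', (Finset.subset_insert _ _).trans hD', hD'k, fun C hC Z hZ => ?_⟩
          by_cases hZY : Z = Y
          · subst hZY
            rw [Function.update_self]
            intro hall
            apply hC
            left
            refine ⟨E, hE.trans (hV.trans (φ.Xmono _ _ _ _ h13)), y,
              hD' (Finset.mem_insert_self _ _), hL.mono _ _ _ _ (φ.ext_nd h13) hEy, ?_⟩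
            have h7 : ∀ w ∈ E, w ∈ C → c (insert w Z) ∈ insert y D := by
              intro w hw hwC
              by_contra h8
              refine H' C hC (insert w Z) (Finset.mem_union_right _ (Finset.mem_image_of_mem _
                (Finset.mem_filter.2 ⟨hw, h8⟩))) (fun u hu => ?_)
              by_cases huw : u = w
              · rw [huw]; exact hwC
              · apply hall
                rw [← hEt w hw]
                exact Finset.mem_erase.2 ⟨huw, hu⟩
            exact fun u hu v hv huC hvC => huniq u hu v hv (h7 u hu huC) (h7 v hv hvC)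
          · rw [Function.update_of_ne hZY]
            exact H' C hC Z (Finset.mem_union_left _ (Finset.mem_erase.2 ⟨hZY, hZ⟩))
        · obtain ⟨D', hD', hD'k, H'⟩ := H D (by omega) hDk (U.erase Y)
            (hUe.trans Finset.subset_union_left) hcU
          refine ⟨D', hD', hD'k, fun C hC Z hZ => ?_⟩
          have hZY : Z ≠ Y := fun h => hYU (h ▸ hZ)
          rw [Function.update_of_ne hZY]
          exact H' C hC Z (Finset.mem_erase.2 ⟨hZY, hZ⟩)

end Pool.Agent.H132Z.RT
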